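import Mathlib

set_option autoImplicit false
set_option linter.unusedSectionVars false
set_option linter.style.haveILetI false

/-!
# Polynomials in two variables: restriction to lines, total degree, derivatives, squares
-/

namespace Pool.Agent.Helper1.Niho4

open Polynomial Finset Classical

/-- polynomials in `X` (outer) and `Y` (inner variable) -/
abbrev BP (K : Type) [Field K] := Polynomial (Polynomial K)

section basic

variable {K : Type} [Field K]

/-- restriction to the line `X = u Y + f` -/
noncomputable def res (u f : K) : BP K →+* K[X] := evalRingHom (C u * X + C f)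

lemma res_apply (u f : K) (P : BP K) : res u f P = P.eval (C u * X + C f) := rfl

@[simp] lemma res_X (u f : K) : res u f X = C u * X + C f := by simp [res]
@[simp] lemma res_C (u f : K) (a : K[X]) : res u f (C a) = a := by simp [res]

/-- total degree `< n` -/
def TL (P : BP K) (n : ℕ) : Prop := ∀ i j, n ≤ i + j → (P.coeff i).coeff j = 0

lemma TL.mono {P : BP K} {n m : ℕ} (h : TL P n) (hnm : n ≤ m) : TL P m :=
  fun i j hij => h i j (hnm.trans hij)

lemma TL.zero (n : ℕ) : TL (0 : BP K) n := fun i j _ => by simp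

lemma TL.add {P Q : BP K} {n : ℕ} (hP : TL P n) (hQ : TL Q n) : TL (P + Q) n :=
  fun i j hij => by rw [coeff_add, coeff_add, hP i j hij, hQ i j hij, add_zero]

lemma TL.sub {P Q : BP K} {n : ℕ} (hP : TL P n) (hQ : TL Q n) : TL (P - Q) n :=
  fun i j hij => by rw [coeff_sub, coeff_sub, hP i j hij, hQ i j hij, sub_zero]

lemma TL.CC (a : K) : TL (C (C a) : BP K) 1 := by
  intro i j hij
  rw [coeff_C]
  split_ifs with h
  · rw [coeff_C, if_neg (by omega)]
  · simp

lemma TL.varX : TL (X : BP K) 2 := by
  intro i j hij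
  rw [coeff_X]
  split_ifs with h
  · rw [coeff_one, if_neg (by omega)]
  · simp

lemma TL.varY : TL (C X : BP K) 2 := by
  intro i j hij
  rw [coeff_C]
  split_ifs with h
  · rw [coeff_X, if_neg (by omega)]
  · simp

lemma TL.mul {P Q : BP K} {a b : ℕ} (hP : TL P (a + 1)) (hQ : TL Q (b + 1)) :
    TL (P * Q) (a + b + 1) := by
  intro i j hij
  rw [coeff_mul, finsetSum_coeff]
  apply Finset.sum_eq_zero
  intro x hx
  rw [coeff_mul]
  apply Finset.sum_eq_zero
  intro y hy
  rw [Finset.HasAntidiagonal.mem_antidiagonal] at hx hy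
  by_cases h : a + 1 ≤ x.1 + y.1
  · rw [hP _ _ h, zero_mul]
  · rw [hQ _ _ (by omega), mul_zero]

lemma TL.CC_mul {P : BP K} {n : ℕ} (hP : TL P n) (a : K) : TL (C (C a) * P) n := by
  intro i j hij
  rw [coeff_C_mul, coeff_C_mul, hP i j hij, mul_zero]

lemma TL.pow {P : BP K} {a : ℕ} (hP : TL P (a + 1)) (n : ℕ) : TL (P ^ n) (n * a + 1) := by
  induction n with
  | zero =>
    rw [pow_zero, zero_mul, zero_add, ← C_1, ← C_1]
    exact TL.CC 1
  | succ n ih =>
    rw [pow_succ]
    have := ih.mul hP
    rwa [Nat.succ_mul]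

lemma TL.eq_zero {P : BP K} (h : TL P 0) : P = 0 := by
  ext i j
  rw [h i j (Nat.zero_le _)]
  simp

lemma TL.natDegree_le {P : BP K} {n : ℕ} (h : TL P (n + 1)) : P.natDegree ≤ n := by
  rw [natDegree_le_iff_coeff_eq_zero]
  intro i hi
  ext j
  rw [h i j (by omega)]
  simp

lemma TL.coeff_natDegree_le {P : BP K} {n : ℕ} (h : TL P (n + 1)) {i : ℕ} (hi : i ≤ n) :
    (P.coeff i).natDegree ≤ n - i := by
  rw [natDegree_le_iff_coeff_eq_zero]
  intro j hj
  exact h i j (by omega)

lemma TL.res_natDegree_le {P : BP K} {n : ℕ} (h : TL P (n + 1)) (u f : K) :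
    (res u f P).natDegree ≤ n := by
  rw [res_apply, eval_eq_sum_range' (Nat.lt_succ_of_le h.natDegree_le)]
  apply natDegree_sum_le_of_forall_le
  intro i hi
  rw [Finset.mem_range] at hi
  have h1 := h.coeff_natDegree_le (i := i) (by omega)
  have h2 : ((C u * X + C f : K[X]) ^ i).natDegree ≤ i := by
    have := natDegree_pow_le (p := (C u * X + C f : K[X])) (n := i)
    have h3 : (C u * X + C f : K[X]).natDegree ≤ 1 := natDegree_linear_le
    calc _ ≤ i * (C u * X + C f : K[X]).natDegree := this
      _ ≤ i * 1 := Nat.mul_le_mul_left i h3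
      _ = i := mul_one i
  have := natDegree_mul_le (p := P.coeff i) (q := (C u * X + C f) ^ i)
  omega

/-- a polynomial of small degree which vanishes on all lines `X = u Y + F u` is zero -/
lemma eq_zero_of_res [Fintype K] {F : K → K} {P : BP K} {n : ℕ} (h : TL P n)
    (hn : n ≤ Fintype.card K) (h0 : ∀ u, res u (F u) P = 0) : P = 0 := by
  rcases Nat.eq_zero_or_pos n with rfl | hpos
  · exact h.eq_zero
  obtain ⟨m, rfl⟩ : ∃ m, n = m + 1 := ⟨n - 1, by omega⟩
  apply eq_zero_of_natDegree_lt_card_of_eval_eq_zero P (ι := K)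
    (f := fun u => C u * X + C (F u))
  · intro u v huv
    have := congrArg (fun p : K[X] => p.coeff 1) huv
    simpa using this
  · intro u
    exact h0 u
  · exact lt_of_le_of_lt h.natDegree_le (by omega)

/-! ### derivatives -/

/-- a polynomial with given coefficients -/
noncomputable def ofC {R : Type} [CommRing R] (N : ℕ) (f : ℕ → R) : R[X] :=
  ∑ i ∈ range N, monomial i (f i)

lemma coeff_ofC {R : Type} [CommRing R] (N : ℕ) (f : ℕ → R) (n : ℕ) :
    (ofC N f).coeff n = if n < N then f n else 0 := by
  unfold ofC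
  rw [finsetSum_coeff]
  simp_rw [coeff_monomial]
  rw [Finset.sum_ite_eq']
  simp

/-- derivative in the inner variable -/
noncomputable def dY (P : BP K) : BP K := ofC (P.natDegree + 1) fun i => derivative (P.coeff i)

lemma coeff_dY (P : BP K) (i : ℕ) : (dY P).coeff i = derivative (P.coeff i) := by
  unfold dY
  rw [coeff_ofC]
  split_ifs with h
  · rfl
  · rw [coeff_eq_zero_of_natDegree_lt (by omega), derivative_zero]

lemma dY_add (P Q : BP K) : dY (P + Q) = dY P + dY Q := by
  ext1 i
  simp only [coeff_dY, coeff_add, derivative_add]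

lemma dY_mul (P Q : BP K) : dY (P * Q) = dY P * Q + P * dY Q := by
  ext1 i
  simp only [coeff_dY, coeff_add, coeff_mul, derivative_sum, derivative_mul,
    Finset.sum_add_distrib]

lemma dY_X : dY (X : BP K) = 0 := by
  ext1 i
  rw [coeff_dY, coeff_X, coeff_zero]
  split_ifs <;> simp

lemma dY_C (a : K[X]) : dY (C a : BP K) = C (derivative a) := by
  ext1 i
  rw [coeff_dY, coeff_C, coeff_C]
  split_ifs <;> simp

/-- the chain rule on the line `X = u Y + f` -/
lemma chain (u f : K) (P : BP K) :
    derivative (res u f P) = C u * res u f (derivative P) + res u f (dY P) := by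
  induction P using Polynomial.induction_on' with
  | add P Q hP hQ =>
    rw [map_add, derivative_add, hP, hQ, derivative_add, map_add, dY_add, map_add]
    ring
  | monomial n a =>
    rw [← C_mul_X_pow_eq_monomial]
    have hX : ∀ n : ℕ, dY ((X : BP K) ^ n) = 0 := by
      intro n
      induction n with
      | zero =>
        rw [pow_zero, ← C_1, dY_C]
        simp
      | succ n ih => rw [pow_succ, dY_mul, ih, dY_X, zero_mul, mul_zero, add_zero]
    rw [dY_mul, hX, dY_C, mul_zero, add_zero, derivative_C_mul_X_pow, map_mul (res u f),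
      map_pow (res u f), res_X, res_C, derivative_mul, map_mul (res u f), map_pow (res u f), res_C,
      res_X, derivative_pow, map_mul (res u f), map_pow (res u f), res_C, res_X]
    simp only [derivative_add, derivative_mul, derivative_C, derivative_X, map_natCast]
    ring

lemma TL.dXle {P : BP K} {n : ℕ} (h : TL P (n + 1)) : TL (derivative P) n := by
  intro i j hij
  rw [coeff_derivative]
  have h1 : ((i : K[X]) + 1) = C ((i : K) + 1) := by simp
  rw [h1, coeff_mul_C, h (i + 1) j (by omega), zero_mul]

lemma TL.dYle {P : BP K} {n : ℕ} (h : TL P (n + 1)) : TL (dY P) n := by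
  intro i j hij
  rw [coeff_dY, coeff_derivative, h i (j + 1) (by omega), zero_mul]

end basic

/-! ### characteristic two -/

section char2

variable {K : Type} [Field K] [CharP K 2]

lemma coeff_sq1 {R : Type} [CommRing R] [CharP R 2] (P : R[X]) (i : ℕ) :
    (P ^ 2).coeff i = if 2 ∣ i then (P.coeff (i / 2)) ^ 2 else 0 := by
  rw [← map_frobenius_expand 2 P, coeff_map, coeff_expand (by norm_num)]
  split_ifs
  · rfl
  · simp

lemma coeff_sq (P : BP K) (i j : ℕ) :
    ((P ^ 2).coeff i).coeff j =
      if 2 ∣ i ∧ 2 ∣ j then ((P.coeff (i / 2)).coeff (j / 2)) ^ 2 else 0 := by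
  rw [coeff_sq1]
  by_cases hi : 2 ∣ i
  · rw [if_pos hi, coeff_sq1]
    simp [hi]
  · rw [if_neg hi, if_neg (by tauto)]
    simp

end char2

section perfect

variable {K : Type} [Field K] [CharP K 2] [PerfectRing K 2]

/-- square root in a perfect field -/
noncomputable def rt (x : K) : K := (frobeniusEquiv K 2).symm x

lemma rt_sq (x : K) : rt x ^ 2 = x := frobeniusEquiv_symm_pow_p K 2 x

lemma rt_zero : rt (0 : K) = 0 := by unfold rt; simp

/-- the part of `P` with exponents congruent to `a`, `b` modulo two, halved -/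
noncomputable def half (a b : ℕ) (P : BP K) : BP K :=
  ofC (P.natDegree + 1) fun i => ofC ((P.coeff (2 * i + a)).natDegree + 1) fun j =>
    rt ((P.coeff (2 * i + a)).coeff (2 * j + b))

lemma coeff_half (a b : ℕ) (P : BP K) (i j : ℕ) :
    ((half a b P).coeff i).coeff j = rt ((P.coeff (2 * i + a)).coeff (2 * j + b)) := by
  unfold half
  rw [coeff_ofC]
  split_ifs with h
  · rw [coeff_ofC]
    split_ifs with h'
    · rfl
    · rw [coeff_eq_zero_of_natDegree_lt (n := 2 * j + b) (by omega), rt_zero]
  · rw [coeff_eq_zero_of_natDegree_lt (n := 2 * i + a) (by omega)]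
    simp [rt_zero]

lemma coeff_X_mul_sq (P : BP K) (i j : ℕ) :
    ((X * P ^ 2).coeff i).coeff j =
      if i % 2 = 1 ∧ j % 2 = 0 then ((P.coeff (i / 2)).coeff (j / 2)) ^ 2 else 0 := by
  rcases i with _ | i
  · simp
  · rw [coeff_X_mul, coeff_sq]
    by_cases h : 2 ∣ i ∧ 2 ∣ j
    · rw [if_pos h, if_pos (by omega)]
      have : (i + 1) / 2 = i / 2 := by omega
      rw [this]
    · rw [if_neg h, if_neg (by omega)]

lemma coeff_CX_mul (P : BP K) (i j : ℕ) :
    ((C X * P).coeff i).coeff (j + 1) = (P.coeff i).coeff j := by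
  rw [coeff_C_mul, coeff_X_mul]

lemma coeff_CX_mul_zero (P : BP K) (i : ℕ) :
    ((C X * P).coeff i).coeff 0 = 0 := by
  rw [coeff_C_mul]
  simp

/-- decomposition of a polynomial in two variables into squares -/
lemma sq_decomp (P : BP K) :
    P = half 0 0 P ^ 2 + X * half 1 0 P ^ 2 + C X * half 0 1 P ^ 2 +
      C X * (X * half 1 1 P ^ 2) := by
  ext i j
  simp only [coeff_add]
  rcases Nat.even_or_odd' i with ⟨i', hi | hi⟩ <;> rcases Nat.even_or_odd' j with ⟨j', hj | hj⟩
  · -- even even
    subst hi hj
    rw [coeff_sq, coeff_X_mul_sq, if_pos (by omega), if_neg (by omega), coeff_half, rt_sq]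
    have h1 : ((C X * half 0 1 P ^ 2).coeff (2 * i')).coeff (2 * j') = 0 := by
      rcases j' with _ | j'
      · exact coeff_CX_mul_zero _ _
      · have : 2 * (j' + 1) = (2 * j' + 1) + 1 := by ring
        rw [this, coeff_CX_mul, coeff_sq, if_neg (by omega)]
    have h2 : ((C X * (X * half 1 1 P ^ 2)).coeff (2 * i')).coeff (2 * j') = 0 := by
      rcases j' with _ | j'
      · exact coeff_CX_mul_zero _ _
      · have : 2 * (j' + 1) = (2 * j' + 1) + 1 := by ring
        rw [this, coeff_CX_mul, coeff_X_mul_sq, if_neg (by omega)]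
    rw [h1, h2]
    simp
  · subst hi hj
    rw [coeff_sq, coeff_X_mul_sq, if_neg (by omega), if_neg (by omega), coeff_CX_mul,
      coeff_CX_mul, coeff_sq, coeff_X_mul_sq, if_pos (by omega), if_neg (by omega), coeff_half,
      rt_sq]
    simp
  · subst hi hj
    rw [coeff_sq, coeff_X_mul_sq, if_neg (by omega), if_pos (by omega), coeff_half, rt_sq]
    have h1 : ((C X * half 0 1 P ^ 2).coeff (2 * i' + 1)).coeff (2 * j') = 0 := by
      rcases j' with _ | j'
      · exact coeff_CX_mul_zero _ _
      · have : 2 * (j' + 1) = (2 * j' + 1) + 1 := by ring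
        rw [this, coeff_CX_mul, coeff_sq, if_neg (by omega)]
    have h2 : ((C X * (X * half 1 1 P ^ 2)).coeff (2 * i' + 1)).coeff (2 * j') = 0 := by
      rcases j' with _ | j'
      · exact coeff_CX_mul_zero _ _
      · have : 2 * (j' + 1) = (2 * j' + 1) + 1 := by ring
        rw [this, coeff_CX_mul, coeff_X_mul_sq, if_neg (by omega)]
    rw [h1, h2]
    have h3 : (2 * i' + 1) / 2 = i' := by omega
    have h4 : 2 * j' / 2 = j' := by omega
    rw [h3, h4]
    simp
  · subst hi hj
    rw [coeff_sq, coeff_X_mul_sq, if_neg (by omega), if_neg (by omega), coeff_CX_mul,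
      coeff_CX_mul, coeff_sq, coeff_X_mul_sq, if_neg (by omega), if_pos (by omega), coeff_half,
      rt_sq]
    have h3 : (2 * i' + 1) / 2 = i' := by omega
    have h4 : 2 * j' / 2 = j' := by omega
    rw [h3, h4]
    simp

lemma TL_half {P : BP K} {n : ℕ} (h : TL P (2 * n + 1)) (a b : ℕ) : TL (half a b P) (n + 1) := by
  intro i j hij
  rw [coeff_half, h _ _ (by omega), rt_zero]

lemma TL_half' {P : BP K} {n : ℕ} (h : TL P (2 * n + 1)) {a b : ℕ} (hab : 1 ≤ a + b) :
    TL (half a b P) n := by
  intro i j hij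
  rw [coeff_half, h _ _ (by omega), rt_zero]

lemma half_zero_of_dX {P : BP K} (h : derivative P = 0) (b : ℕ) : half 1 b P = 0 := by
  ext i j
  rw [coeff_half]
  have h1 := congrArg (fun p : BP K => (p.coeff (2 * i)).coeff (2 * j + b)) h
  simp only [coeff_zero] at h1
  rw [coeff_derivative] at h1
  have h2 : (((2 * i : ℕ) : K[X]) + 1) = 1 := by
    push_cast
    have : (2 : K[X]) = 0 := by
      have := CharP.cast_eq_zero (K[X]) 2
      exact_mod_cast this
    rw [this]; ring
  rw [h2, mul_one] at h1
  rw [h1, rt_zero]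
  simp

lemma half_zero_of_dY {P : BP K} (h : dY P = 0) (a : ℕ) : half a 1 P = 0 := by
  ext i j
  rw [coeff_half]
  have h1 := congrArg (fun p : BP K => (p.coeff (2 * i + a)).coeff (2 * j)) h
  simp only [coeff_zero] at h1
  rw [coeff_dY, coeff_derivative] at h1
  have h2 : (((2 * j : ℕ) : K) + 1) = 1 := by
    push_cast
    have : (2 : K) = 0 := by
      have := CharP.cast_eq_zero K 2
      exact_mod_cast this
    rw [this]; ring
  rw [h2, mul_one] at h1
  rw [h1, rt_zero]
  simp

/-- a polynomial with zero partial derivatives is a square -/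
lemma eq_sq_of_deriv {P : BP K} (h1 : derivative P = 0) (h2 : dY P = 0) : P = half 0 0 P ^ 2 := by
  have h := sq_decomp P
  rw [half_zero_of_dX h1, half_zero_of_dX h1, half_zero_of_dY h2] at h
  simpa using h

end perfect

/-! ### the modules -/

section modules

variable {K : Type} [Field K]

/-- twisted relation on all the lines `X = u Y + F u` -/
def InM (F : K → K) (e : ℕ) (A B D : BP K) : Prop :=
  ∀ u : K, res u (F u) A + C (u ^ e) * res u (F u) B + C (F u ^ e) * res u (F u) D = 0

/-- no nonzero element of total degree `< r` in the first module -/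
def IsMin (F : K → K) (e r : ℕ) : Prop :=
  ∀ A B D : BP K, InM F e A B D → TL A r → TL B r → TL D r → A = 0 ∧ B = 0 ∧ D = 0

end modules

/-! ### the configuration -/

section cfg

variable {K : Type} [Field K] [Fintype K]

/-- the points of the graph on the line `(c, m)` -/
noncomputable def blk (F : K → K) (c m : K) : Finset K := univ.filter fun v => F v + m * v = c

lemma mem_blk {F : K → K} {c m v : K} : v ∈ blk F c m ↔ F v + m * v = c := by simp [blk]

/-- the slopes of the full lines through the point of `u` -/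
noncomputable def SS (F : K → K) (s : ℕ) (u : K) : Finset K :=
  univ.filter fun m => (blk F (F u + m * u) m).card = s

lemma mem_SS {F : K → K} {s : ℕ} {u m : K} :
    m ∈ SS F s u ↔ (blk F (F u + m * u) m).card = s := by simp [SS]

/-- the full lines -/
noncomputable def LL (F : K → K) (s : ℕ) : Finset (K × K) :=
  univ.filter fun p => (blk F p.1 p.2).card = s

lemma mem_LL {F : K → K} {s : ℕ} {p : K × K} : p ∈ LL F s ↔ (blk F p.1 p.2).card = s := by
  simp [LL]

/-- Standing hypotheses: a function on the field of `2 ^ k` elements all of whose lines have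
`0`, `1` or `2 ^ g` points; `s = 2 ^ g = 4 * s4`, `Q = 2 ^ (k - g)`, `th = s * t + 1`. -/
structure Cfg (K : Type) [Field K] [Fintype K] (k g s Q t th : ℕ) (F : K → K) : Prop where
  hg : 2 ≤ g
  hgk : 2 * g ≤ k
  hs : s = 2 ^ g
  hQ : Q = 2 ^ (k - g)
  hQt : Q = (s - 1) * t + 1
  hth : th = s * t + 1
  card : Fintype.card K = 2 ^ k
  line : ∀ c m : K, (blk F c m).card = 0 ∨ (blk F c m).card = 1 ∨ (blk F c m).card = s

end cfg

end Pool.Agent.Helper1.Niho4
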