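import Pool.Agent.Helper1.Niho4.Basic

set_option autoImplicit false
set_option linter.unusedSectionVars false

/-!
# The contact lemma
-/

namespace Pool.Agent.Helper1.Niho4

open Polynomial Finset Classical

section jets

variable {K : Type} [Field K]

/-- `Y ↦ m + y` -/
noncomputable def jetY (m : K) : K[X] →+* BP K :=
  eval₂RingHom ((C : K[X] →+* BP K).comp (C : K →+* K[X])) (C (C m) + X)

/-- `X ↦ c + T y`, `Y ↦ m + y`; outer variable `y`, inner variable `T` -/
noncomputable def jet (c m : K) : BP K →+* BP K := eval₂RingHom (jetY m) (C (C c) + C X * X)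

/-- the coefficient of `y ^ j` has degree at most `j` in `T` -/
def Sl (P : BP K) : Prop := ∀ j, (P.coeff j).natDegree ≤ j

lemma Sl.add {P R : BP K} (hP : Sl P) (hR : Sl R) : Sl (P + R) := by
  intro j
  rw [coeff_add]
  exact (natDegree_add_le _ _).trans (max_le (hP j) (hR j))

lemma Sl.mul {P R : BP K} (hP : Sl P) (hR : Sl R) : Sl (P * R) := by
  intro j
  rw [coeff_mul]
  apply natDegree_sum_le_of_forall_le
  intro x hx
  rw [Finset.HasAntidiagonal.mem_antidiagonal] at hx
  refine (natDegree_mul_le).trans ?_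
  have h1 := hP x.1
  have h2 := hR x.2
  omega

lemma Sl.CC (a : K) : Sl (C (C a) : BP K) := by
  intro j
  rw [coeff_C]
  split_ifs <;> simp

lemma Sl.varX : Sl (X : BP K) := by
  intro j
  rw [coeff_X]
  split_ifs <;> simp

lemma Sl.CXX : Sl (C X * X : BP K) := by
  intro j
  rw [coeff_C_mul, coeff_X]
  split_ifs with h
  · subst h
    simp
  · simp

lemma Sl.pow {P : BP K} (hP : Sl P) (n : ℕ) : Sl (P ^ n) := by
  induction n with
  | zero =>
    rw [pow_zero, ← C_1, ← C_1]
    exact Sl.CC 1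
  | succ n ih =>
    rw [pow_succ]
    exact ih.mul hP

lemma Sl.jetY (m : K) (a : K[X]) : Sl (jetY m a) := by
  induction a using Polynomial.induction_on' with
  | add p r hp hr =>
    rw [map_add]
    exact hp.add hr
  | monomial n a =>
    rw [← C_mul_X_pow_eq_monomial, map_mul, map_pow]
    have h1 : Niho4.jetY m (C a) = C (C a) := by simp [Niho4.jetY]
    have h2 : Niho4.jetY m X = C (C m) + X := by simp [Niho4.jetY]
    rw [h1, h2]
    exact (Sl.CC a).mul (((Sl.CC m).add Sl.varX).pow n)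

lemma jet_X (c m : K) : jet c m X = C (C c) + C X * X := by simp [jet]
lemma jet_C (c m : K) (a : K[X]) : jet c m (C a) = jetY m a := by simp [jet]

lemma Sl.jet (c m : K) (P : BP K) : Sl (jet c m P) := by
  induction P using Polynomial.induction_on' with
  | add p r hp hr =>
    rw [map_add]
    exact hp.add hr
  | monomial n a =>
    rw [← C_mul_X_pow_eq_monomial, map_mul, map_pow, jet_X, jet_C]
    exact (Sl.jetY m a).mul (((Sl.CC c).add Sl.CXX).pow n)

/-- specialisation of the jet -/
lemma jet_map {c m u f : K} (h : f + m * u = c) (P : BP K) :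
    (jet c m P).map (evalRingHom u) = (res u f P).comp (X + C m) := by
  have key : (mapRingHom (evalRingHom u)).comp (jet c m) =
      (compRingHom (X + C m)).comp (res u f) := by
    apply Polynomial.ringHom_ext
    · intro a
      simp only [RingHom.comp_apply, jet_C, res_C, coe_compRingHom_apply, coe_mapRingHom]
      induction a using Polynomial.induction_on' with
      | add p r hp hr => rw [map_add, Polynomial.map_add, hp, hr, add_comp]
      | monomial n a =>
        rw [← C_mul_X_pow_eq_monomial, map_mul, map_pow]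
        have h1 : jetY m (C a) = C (C a) := by simp [jetY]
        have h2 : jetY m X = C (C m) + X := by simp [jetY]
        rw [h1, h2]
        simp only [Polynomial.map_mul, Polynomial.map_pow, Polynomial.map_add, map_C, map_X,
          coe_evalRingHom, eval_C, mul_comp, pow_comp, X_comp, C_comp]
        rw [add_comm X]
    · simp only [RingHom.comp_apply, jet_X, res_X, coe_compRingHom_apply, coe_mapRingHom,
        Polynomial.map_mul, Polynomial.map_add, map_C, map_X, coe_evalRingHom, eval_C, eval_X,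
        mul_comp, add_comp, C_comp, X_comp]
      rw [← h]
      simp only [C_add, C_mul]
      ring
  exact congrArg (fun φ : BP K →+* K[X] => φ P) key

lemma jet_coeff {c m u f : K} (h : f + m * u = c) (P : BP K) (j : ℕ) :
    ((jet c m P).coeff j).eval u = ((res u f P).comp (X + C m)).coeff j := by
  rw [← jet_map h, coeff_map, coe_evalRingHom]

lemma dvd_of_jet {c m u f : K} (h : f + m * u = c) (P : BP K) {N : ℕ}
    (h0 : ∀ j < N, (jet c m P).coeff j = 0) : (X - C m) ^ N ∣ res u f P := by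
  rw [X_sub_C_pow_dvd_iff, X_pow_dvd_iff]
  intro j hj
  rw [← jet_coeff h, h0 j hj, eval_zero]

end jets

section char2

variable {K : Type} [Field K] [CharP K 2]

lemma pair_zero {i j e : ℕ} (hi : 1 ≤ i) {U : Finset K} (hU : 2 ^ i * j + 1 < U.card)
    (he : ∀ x : K, (x ^ e) ^ (2 ^ i) = x) {α β : K[X]} (hα : α.natDegree ≤ j)
    (hβ : β.natDegree ≤ j) (h : ∀ u ∈ U, α.eval u + u ^ e * β.eval u = 0) : α = 0 ∧ β = 0 := by
  have h0 : α ^ (2 ^ i) + X * β ^ (2 ^ i) = 0 := by
    apply eq_zero_of_natDegree_lt_card_of_eval_eq_zero' _ U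
    · intro u hu
      rw [eval_add, eval_mul, eval_pow, eval_pow, eval_X]
      have h1 := congrArg (fun x => x ^ (2 ^ i)) (h u hu)
      rw [add_pow_char_pow, mul_pow, he, zero_pow (by positivity)] at h1
      exact h1
    · refine lt_of_le_of_lt ?_ hU
      refine (natDegree_add_le _ _).trans (max_le ?_ ?_)
      · calc (α ^ 2 ^ i).natDegree ≤ 2 ^ i * α.natDegree := natDegree_pow_le
          _ ≤ 2 ^ i * j := Nat.mul_le_mul_left _ hα
          _ ≤ 2 ^ i * j + 1 := Nat.le_succ _
      · calc (X * β ^ 2 ^ i).natDegree ≤ (X : K[X]).natDegree + (β ^ 2 ^ i).natDegree :=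
              natDegree_mul_le
          _ ≤ 1 + 2 ^ i * β.natDegree := by
              rw [natDegree_X]
              exact Nat.add_le_add_left natDegree_pow_le 1
          _ ≤ 1 + 2 ^ i * j := Nat.add_le_add_left (Nat.mul_le_mul_left _ hβ) 1
          _ = 2 ^ i * j + 1 := add_comm _ _
  have hβ0 : β = 0 := by
    by_contra hne
    have h1 : α ^ (2 ^ i) = X * β ^ (2 ^ i) := by
      have := eq_neg_of_add_eq_zero_left h0
      rw [this, CharTwo.neg_eq]
    have h2 := congrArg natDegree h1
    rw [natDegree_pow, natDegree_X_mul (pow_ne_zero _ hne), natDegree_pow] at h2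
    obtain ⟨i', rfl⟩ : ∃ i', i = i' + 1 := ⟨i - 1, by omega⟩
    rw [pow_succ] at h2
    have h3 : 2 ^ i' * 2 * α.natDegree = 2 * (2 ^ i' * α.natDegree) := by ring
    have h4 : 2 ^ i' * 2 * β.natDegree = 2 * (2 ^ i' * β.natDegree) := by ring
    omega
  refine ⟨?_, hβ0⟩
  rw [hβ0, zero_pow (by positivity), mul_zero, add_zero] at h0
  exact pow_eq_zero_iff (by positivity) |>.1 h0

variable [Fintype K]

lemma frob_inv {k i : ℕ} (hK : Fintype.card K = 2 ^ k) (hik : i ≤ k) (x : K) :
    (x ^ 2 ^ (k - i)) ^ 2 ^ i = x := by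
  rw [← pow_mul, ← pow_add, Nat.sub_add_cancel hik, ← hK]
  exact FiniteField.pow_card x

/-- the relation between the jets -/
lemma jet_rel {k i : ℕ} {F : K → K} {A B D : BP K} {c m : K} {u : K}
    (hu : F u + m * u = c)
    (hrel : res u (F u) A + C (u ^ 2 ^ (k - i)) * res u (F u) B +
      C (F u ^ 2 ^ (k - i)) * res u (F u) D = 0) (j : ℕ) :
    ((jet c m (A + C (C (c ^ 2 ^ (k - i))) * D)).coeff j).eval u +
      u ^ 2 ^ (k - i) * ((jet c m (B + C (C (m ^ 2 ^ (k - i))) * D)).coeff j).eval u = 0 := by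
  set e := 2 ^ (k - i) with he
  have hc : c ^ e = F u ^ e + m ^ e * u ^ e := by
    rw [← hu, he, add_pow_char_pow, mul_pow]
  rw [jet_coeff hu, jet_coeff hu, ← coeff_C_mul, ← coeff_add]
  have h2 : (2 : K[X]) = 0 := by
    have := CharP.cast_eq_zero (K[X]) 2
    exact_mod_cast this
  have h1 : (res u (F u) (A + C (C (c ^ e)) * D)).comp (X + C m) +
      C (u ^ e) * (res u (F u) (B + C (C (m ^ e)) * D)).comp (X + C m) = 0 := by
    have h3 : res u (F u) (A + C (C (c ^ e)) * D) +
        C (u ^ e) * res u (F u) (B + C (C (m ^ e)) * D) = 0 := by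
      rw [map_add, map_add, map_mul, map_mul, res_C, res_C, hc]
      simp only [C_add, C_mul] at hrel ⊢
      linear_combination hrel + (C (m ^ e) * C (u ^ e) * res u (F u) D) * h2
    have h4 := congrArg (fun p : K[X] => p.comp (X + C m)) h3
    simpa using h4
  rw [h1, coeff_zero]

/-- the contact lemma -/
theorem contact {k : ℕ} {F : K → K} (hK : Fintype.card K = 2 ^ k) {i N : ℕ} (hi : 1 ≤ i)
    (hik : i ≤ k) {A B D : BP K} {c m : K} {U : Finset K} (hU : U ⊆ blk F c m)
    (hrel : ∀ u ∈ U, res u (F u) A + C (u ^ 2 ^ (k - i)) * res u (F u) B +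
      C (F u ^ 2 ^ (k - i)) * res u (F u) D = 0)
    (hN : ∀ j < N, 2 ^ i * j + 1 < U.card) {v : K} (hv : v ∈ blk F c m) :
    (X - C m) ^ N ∣ res v (F v) A + C (c ^ 2 ^ (k - i)) * res v (F v) D ∧
    (X - C m) ^ N ∣ res v (F v) B + C (m ^ 2 ^ (k - i)) * res v (F v) D := by
  have key : ∀ j < N, (jet c m (A + C (C (c ^ 2 ^ (k - i))) * D)).coeff j = 0 ∧
      (jet c m (B + C (C (m ^ 2 ^ (k - i))) * D)).coeff j = 0 := by
    intro j hj
    apply pair_zero hi (hN j hj) (fun x => frob_inv hK hik x) (Sl.jet c m _ j) (Sl.jet c m _ j)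
    intro u hu
    exact jet_rel (mem_blk.1 (hU hu)) (hrel u hu) j
  have h1 := dvd_of_jet (mem_blk.1 hv) _ (fun j hj => (key j hj).1)
  have h2 := dvd_of_jet (mem_blk.1 hv) _ (fun j hj => (key j hj).2)
  rw [map_add, map_mul, res_C] at h1 h2
  exact ⟨h1, h2⟩

/-- the flag lemma: contact of order two or a relation on the block -/
theorem flag {k g s : ℕ} {F : K → K} (hK : Fintype.card K = 2 ^ k) (hg : 1 ≤ g) (hgk : g ≤ k)
    (hs : s = 2 ^ g)
    {A B D : BP K} {c m : K} (hcard : (blk F c m).card = s)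
    (hM : InM F (2 ^ (k - g)) A B D) :
    (∀ v ∈ blk F c m, (X - C m) ^ 2 ∣ res v (F v) B + C (m ^ 2 ^ (k - g)) * res v (F v) D) ∨
    ∃ a b d e : K, ¬ (a = 0 ∧ b = 0 ∧ d = 0 ∧ e = 0) ∧
      ∀ x ∈ blk F c m, a * x ^ (s + 1) + b * x ^ s + d * x + e = 0 := by
  have hs2 : 2 ≤ s := by
    rw [hs]
    calc 2 = 2 ^ 1 := rfl
      _ ≤ 2 ^ g := Nat.pow_le_pow_right (by norm_num) hg
  set α := jet c m (A + C (C (c ^ 2 ^ (k - g))) * D) with hα
  set β := jet c m (B + C (C (m ^ 2 ^ (k - g))) * D) with hβ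
  have h0 : α.coeff 0 = 0 ∧ β.coeff 0 = 0 := by
    apply pair_zero hg (U := blk F c m) (by rw [hcard]; omega) (fun x => frob_inv hK hgk x)
      (Sl.jet c m _ 0) (Sl.jet c m _ 0)
    intro u hu
    exact jet_rel (mem_blk.1 hu) (hM u) 0
  by_cases h1 : α.coeff 1 = 0 ∧ β.coeff 1 = 0
  · left
    intro v hv
    have h2 := dvd_of_jet (N := 2) (mem_blk.1 hv) (B + C (C (m ^ 2 ^ (k - g))) * D) (by
      intro j hj
      rw [← hβ]
      have : j = 0 ∨ j = 1 := by omega
      rcases this with rfl | rfl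
      · exact h0.2
      · exact h1.2)
    rw [map_add, map_mul, res_C] at h2
    exact h2
  · right
    refine ⟨((β.coeff 1).coeff 1) ^ s, ((α.coeff 1).coeff 1) ^ s, ((β.coeff 1).coeff 0) ^ s,
      ((α.coeff 1).coeff 0) ^ s, ?_, ?_⟩
    · rintro ⟨h3, h4, h5, h6⟩
      have hs0 : s ≠ 0 := by omega
      rw [pow_eq_zero_iff hs0] at h3 h4 h5 h6
      apply h1
      constructor
      · rw [eq_X_add_C_of_natDegree_le_one (Sl.jet c m _ 1), ← hα, h4, h6]
        simp
      · rw [eq_X_add_C_of_natDegree_le_one (Sl.jet c m _ 1), ← hβ, h3, h5]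
        simp
    · intro x hx
      have h3 := jet_rel (mem_blk.1 hx) (hM x) 1
      rw [← hα, ← hβ, eq_X_add_C_of_natDegree_le_one (p := α.coeff 1) (Sl.jet c m _ 1),
        eq_X_add_C_of_natDegree_le_one (p := β.coeff 1) (Sl.jet c m _ 1)] at h3
      simp only [eval_add, eval_mul, eval_C, eval_X] at h3
      have h4 := congrArg (fun y => y ^ (2 ^ g)) h3
      rw [zero_pow (by positivity), add_pow_char_pow, mul_pow, frob_inv hK hgk, add_pow_char_pow,
        add_pow_char_pow, mul_pow, mul_pow, ← hs] at h4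
      rw [pow_succ x s]
      linear_combination h4

end char2

end Pool.Agent.Helper1.Niho4
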