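import Pool.Agent.Helper1.Niho4.Num

set_option autoImplicit false
set_option linter.unusedSectionVars false

/-!
# Counting full lines
-/

namespace Pool.Agent.Helper1.Niho4

open Polynomial Finset Classical

variable {K : Type} [Field K] [Fintype K] [CharP K 2]
variable {k g s Q t th : ℕ} {F : K → K}

lemma slope_iff' {u v m : K} (h : v ≠ u) :
    (F u + F v) * (u + v)⁻¹ = m ↔ v ∈ blk F (F u + m * u) m := by
  have h2 : (2 : K) = 0 := by
    have := CharP.cast_eq_zero K 2
    exact_mod_cast this
  have hne : u + v ≠ 0 := by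
    intro h0
    apply h
    have : v = -u := (eq_neg_of_add_eq_zero_right h0)
    rw [this, CharTwo.neg_eq]
  rw [mem_blk, mul_inv_eq_iff_eq_mul₀ hne]
  constructor
  · intro h1
    linear_combination h1 + (m * v - F u) * h2
  · intro h1
    linear_combination h1 + (F u - m * v) * h2

lemma Cfg.card_SS (S : Cfg K k g s Q t th F) (u : K) : (SS F s u).card = th := by
  have hs4 : 4 ≤ s := S.s_ge
  have hmaps : ∀ v ∈ (univ : Finset K).erase u, (F u + F v) * (u + v)⁻¹ ∈ SS F s u := by
    intro v hv
    rw [Finset.mem_erase] at hv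
    rw [mem_SS]
    set m := (F u + F v) * (u + v)⁻¹ with hm
    have h1 : v ∈ blk F (F u + m * u) m := (slope_iff' hv.1).1 rfl
    have h2 : u ∈ blk F (F u + m * u) m := mem_blk.2 rfl
    have h3 : ({u, v} : Finset K) ⊆ blk F (F u + m * u) m := by
      intro x hx
      rw [Finset.mem_insert, Finset.mem_singleton] at hx
      rcases hx with rfl | rfl
      · exact h2
      · exact h1
    have h4 := Finset.card_le_card h3
    rw [Finset.card_pair (Ne.symm hv.1)] at h4
    rcases S.line (F u + m * u) m with h5 | h5 | h5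
    · omega
    · omega
    · exact h5
  have h1 := Finset.card_eq_sum_card_fiberwise hmaps
  have h2 : ∀ m ∈ SS F s u, ((univ.erase u).filter fun v => (F u + F v) * (u + v)⁻¹ = m).card =
      s - 1 := by
    intro m hm
    rw [mem_SS] at hm
    have h3 : ((univ : Finset K).erase u).filter (fun v => (F u + F v) * (u + v)⁻¹ = m) =
        (blk F (F u + m * u) m).erase u := by
      ext v
      rw [Finset.mem_filter, Finset.mem_erase, Finset.mem_erase]
      constructor
      · rintro ⟨⟨h4, -⟩, h5⟩
        exact ⟨h4, (slope_iff' h4).1 h5⟩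
      · rintro ⟨h4, h5⟩
        exact ⟨⟨h4, Finset.mem_univ _⟩, (slope_iff' h4).2 h5⟩
    rw [h3, Finset.card_erase_of_mem (mem_blk.2 rfl), hm]
  rw [Finset.sum_congr rfl h2, Finset.sum_const, smul_eq_mul,
    Finset.card_erase_of_mem (Finset.mem_univ _), Finset.card_univ, S.card] at h1
  have h3 := S.s_th
  have h4 : (SS F s u).card * (s - 1) = (s - 1) * th := by omega
  rw [mul_comm] at h4
  exact Nat.eq_of_mul_eq_mul_left (by omega) h4

lemma Cfg.card_LL (S : Cfg K k g s Q t th F) : (LL F s).card = Q * th := by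
  have hs4 : 4 ≤ s := S.s_ge
  have h1 : ∑ p ∈ LL F s, (blk F p.1 p.2).card = (LL F s).card * s := by
    rw [Finset.sum_congr rfl (g := fun _ => s), Finset.sum_const, smul_eq_mul]
    intro p hp
    exact mem_LL.1 hp
  have h2 : ∑ p ∈ LL F s, (blk F p.1 p.2).card = ∑ u : K, (SS F s u).card := by
    have h3 : ∀ p ∈ LL F s, (blk F p.1 p.2).card =
        ∑ u : K, if u ∈ blk F p.1 p.2 then 1 else 0 := by
      intro p _
      rw [Finset.sum_boole]
      simp
    rw [Finset.sum_congr rfl h3, Finset.sum_comm]
    apply Finset.sum_congr rfl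
    intro u _
    rw [Finset.sum_boole, Nat.cast_id]
    apply Finset.card_bij' (fun p _ => p.2) (fun m _ => (F u + m * u, m))
    · intro p hp
      rw [Finset.mem_filter, mem_LL, mem_blk] at hp
      rw [mem_SS, hp.2]
      exact hp.1
    · intro m hm
      rw [mem_SS] at hm
      rw [Finset.mem_filter, mem_LL, mem_blk]
      exact ⟨hm, rfl⟩
    · intro p hp
      rw [Finset.mem_filter, mem_LL, mem_blk] at hp
      rw [hp.2]
    · intro m _
      rfl
  rw [h1, Finset.sum_congr rfl (fun u _ => S.card_SS u), Finset.sum_const, Finset.card_univ,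
    S.card, smul_eq_mul, S.sQ] at h2
  have h3 : s * (LL F s).card = s * (Q * th) := by
    rw [mul_comm, h2]; ring
  exact Nat.eq_of_mul_eq_mul_left (by omega) h3

end Pool.Agent.Helper1.Niho4
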