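import Pool.Agent.Helper1.Niho4.LemmaP

set_option autoImplicit false
set_option linter.unusedSectionVars false

/-!
# The descent
-/

namespace Pool.Agent.Helper1.Niho4

open Polynomial Finset Classical

variable {K : Type} [Field K] [Fintype K] [CharP K 2]
variable {k g s Q t th : ℕ} {F : K → K}

lemma add_sq (a b : K[X]) : (a + b) ^ 2 = a ^ 2 + b ^ 2 := by
  linear_combination (a * b) * twoX (K := K)

lemma InM.sq {i : ℕ} (hik : i + 1 ≤ k) {A B D : BP K}
    (h : InM F (2 ^ (k - (i + 1))) A B D) : InM F (2 ^ (k - i)) (A ^ 2) (B ^ 2) (D ^ 2) := by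
  intro u
  have h1 := h u
  have h2 := congrArg (fun p : K[X] => p ^ 2) h1
  have h3 : ∀ x : K, (x ^ 2 ^ (k - (i + 1))) ^ 2 = x ^ 2 ^ (k - i) := by
    intro x
    rw [← pow_mul, ← pow_succ]
    congr 2
    omega
  simp only [add_sq, mul_pow, ← C_pow, h3] at h2
  rw [map_pow (res u (F u)), map_pow (res u (F u)), map_pow (res u (F u)), h2]
  simp

lemma InM.pow {i : ℕ} (hik : i + 1 ≤ k) {A B D : BP K}
    (h : InM F (2 ^ (k - (i + 1))) A B D) :
    InM F (2 ^ (k - 1)) (A ^ 2 ^ i) (B ^ 2 ^ i) (D ^ 2 ^ i) := by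
  induction i generalizing A B D with
  | zero => simpa using h
  | succ i ih =>
    have h1 := ih (by omega) (h.sq (by omega))
    simpa only [← pow_mul, ← pow_succ'] using h1

/-- minimality in the later modules -/
lemma IsMin.up {i ρ : ℕ} (hik : i + 1 ≤ k) (h : IsMin F (2 ^ (k - 1)) (2 ^ i * ρ)) :
    IsMin F (2 ^ (k - (i + 1))) ρ := by
  intro A B D hM hA hB hD
  rcases Nat.eq_zero_or_pos ρ with rfl | hρ
  · exact ⟨hA.eq_zero, hB.eq_zero, hD.eq_zero⟩
  obtain ⟨n, rfl⟩ : ∃ n, ρ = n + 1 := ⟨ρ - 1, by omega⟩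
  have hle : 2 ^ i * n + 1 ≤ 2 ^ i * (n + 1) := by
    have : 0 < 2 ^ i := by positivity
    rw [Nat.mul_succ]; omega
  obtain ⟨h1, h2, h3⟩ := h _ _ _ (hM.pow hik) ((hA.pow (2 ^ i)).mono hle)
    ((hB.pow (2 ^ i)).mono hle) ((hD.pow (2 ^ i)).mono hle)
  have h4 : 2 ^ i ≠ 0 := by positivity
  exact ⟨(pow_eq_zero_iff h4).1 h1, (pow_eq_zero_iff h4).1 h2, (pow_eq_zero_iff h4).1 h3⟩

lemma dvd_derivative_of_even {N : ℕ} (hN : 2 ∣ N) {m : K} {P : K[X]} (h : (X - C m) ^ N ∣ P) :
    (X - C m) ^ N ∣ derivative P := by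
  obtain ⟨E, rfl⟩ := h
  rw [derivative_mul, derivative_pow]
  have : ((N : ℕ) : K[X]) = 0 := by
    obtain ⟨n, rfl⟩ := hN
    push_cast
    rw [twoX, zero_mul]
  simp [this]

lemma derivative_sq (p : K[X]) : derivative (p ^ 2) = 0 := by
  rw [derivative_pow]
  simp [CharTwo.two_eq_zero]

/-- a derivative of the polynomial ring of one of the two kinds -/
structure IsDer (δ : BP K → BP K) : Prop where
  add : ∀ P R, δ (P + R) = δ P + δ R
  mul : ∀ P R, δ (P * R) = δ P * R + P * δ R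
  deg : ∀ P n, TL P (n + 1) → TL (δ P) n

lemma isDer_X : IsDer (fun P : BP K => derivative P) :=
  ⟨fun _ _ => derivative_add, fun _ _ => derivative_mul, fun _ _ h => h.dXle⟩

lemma isDer_Y : IsDer (fun P : BP K => dY P) := ⟨dY_add, dY_mul, fun _ _ h => h.dYle⟩

lemma IsDer.sq {δ : BP K → BP K} (h : IsDer δ) (P : BP K) : δ (P ^ 2) = 0 := by
  rw [_root_.sq, h.mul]
  have : (2 : BP K) = 0 := by
    have := CharP.cast_eq_zero (BP K) 2
    exact_mod_cast this
  linear_combination (δ P * P) * this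

lemma two_BP : (2 : BP K) = 0 := by
  have := CharP.cast_eq_zero (BP K) 2
  exact_mod_cast this

/-- derivatives of a triple with square products are in the module -/
lemma der_InM {e : ℕ} {δ : BP K → BP K} (hδ : IsDer δ) {A B D R1 R2 R3 : BP K}
    (h1 : B * D = R1 ^ 2) (h2 : A * D = R2 ^ 2) (h3 : A * B = R3 ^ 2)
    (hM : InM F e A B D)
    (hP : ∀ u, ¬ (res u (F u) A = 0 ∧ res u (F u) B = 0 ∧ res u (F u) D = 0)) :
    InM F e (δ A) (δ B) (δ D) := by
  intro u
  have g1 : δ B * D + B * δ D = 0 := by rw [← hδ.mul, h1, hδ.sq]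
  have g2 : δ A * D + A * δ D = 0 := by rw [← hδ.mul, h2, hδ.sq]
  have g3 : δ A * B + A * δ B = 0 := by rw [← hδ.mul, h3, hδ.sq]
  have r1 := congrArg (res u (F u)) g1
  have r2 := congrArg (res u (F u)) g2
  have r3 := congrArg (res u (F u)) g3
  simp only [map_add, map_mul, map_zero] at r1 r2 r3
  have hMu := hM u
  set a := res u (F u) A
  set b := res u (F u) B
  set d := res u (F u) D
  set a' := res u (F u) (δ A)
  set b' := res u (F u) (δ B)
  set d' := res u (F u) (δ D)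
  set φ := a' + C (u ^ e) * b' + C (F u ^ e) * d' with hφ
  have e1 : d * φ = 0 := by
    rw [hφ]
    linear_combination r2 + C (u ^ e) * r1 + d' * hMu - (d' * (a + C (u ^ e) * b)) * twoX (K := K)
  have e2 : b * φ = 0 := by
    rw [hφ]
    linear_combination r3 + C (F u ^ e) * r1 + b' * hMu -
      (b' * (a + C (F u ^ e) * d)) * twoX (K := K)
  have e3 : a * φ = 0 := by
    rw [hφ]
    linear_combination C (u ^ e) * r3 + C (F u ^ e) * r2 + a' * hMu -
      (a' * (C (u ^ e) * b + C (F u ^ e) * d)) * twoX (K := K)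
  by_contra hne
  exact hP u ⟨(mul_eq_zero.1 e3).resolve_right hne, (mul_eq_zero.1 e2).resolve_right hne,
    (mul_eq_zero.1 e1).resolve_right hne⟩

/-- the state of the descent -/
structure State (F : K → K) (k g th i ρ : ℕ) (A B D : BP K) : Prop where
  hρ : 2 ^ i * ρ + 1 ≤ 2 ^ (g - 2) * th
  hmin : IsMin F (2 ^ (k - 1)) (2 ^ i * ρ)
  hA : TL A (ρ + 1)
  hB : TL B (ρ + 1)
  hD : TL D (ρ + 1)
  hM : InM F (2 ^ (k - (i + 1))) A B D
  hP : ∀ u, ¬ (res u (F u) A = 0 ∧ res u (F u) B = 0 ∧ res u (F u) D = 0)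

lemma TL_half_sq {P : BP K} {n : ℕ} (h : TL P (2 * n)) : TL (half 0 0 P) n := by
  intro i j hij
  rw [coeff_half, h _ _ (by omega), rt_zero]

/-- one step of the descent -/
lemma Cfg.step (S : Cfg K k g s Q t th F) (hSS : ∀ u, (SS F s u).card = th) {i ρ : ℕ}
    (hi : i + 2 ≤ g) {A B D : BP K} (h : State F k g th i ρ A B D) :
    ∃ (ρ' : ℕ) (A' B' D' : BP K), State F k g th (i + 1) ρ' A' B' D' := by
  have hg := S.hg
  have hgk := S.hgk
  have hs4 := S.s_ge
  set e := 2 ^ (k - (i + 1)) with he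
  set N := 2 ^ (g - (i + 1)) with hN
  have hNs : 2 ^ (i + 1) * N = s := by
    rw [hN, S.hs, ← pow_add]
    congr 1
    omega
  have hNeven : 2 ∣ N := by
    rw [hN]
    exact dvd_pow_self 2 (by omega)
  have h2i : 0 < 2 ^ i := by positivity
  have hmin' := h.hmin.up (by omega)
  -- the products have zero tangential derivative
  have hbd : ∀ u, derivative (res u (F u) B * res u (F u) D) = 0 := by
    intro u
    apply zero_of_many (S := SS F s u) (N := N)
    · intro m hm
      rw [mem_SS] at hm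
      have hvm : u ∈ blk F (F u + m * u) m := mem_blk.2 rfl
      obtain ⟨-, h2⟩ := contact (i := i + 1) S.card (by omega) (by omega) (N := N) (A := A)
        (B := B) (D := D) (U := blk F (F u + m * u) m) (Finset.Subset.refl _)
        (fun w _ => h.hM w) (by
          intro j hj
          rw [hm, ← hNs]
          have h3 : 2 ^ (i + 1) * j + 2 ^ (i + 1) ≤ 2 ^ (i + 1) * N := by
            calc 2 ^ (i + 1) * j + 2 ^ (i + 1) = 2 ^ (i + 1) * (j + 1) := by ring
              _ ≤ 2 ^ (i + 1) * N := Nat.mul_le_mul_left _ hj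
          have h4 : 2 ≤ 2 ^ (i + 1) := by rw [pow_succ]; omega
          omega) hvm
      have h5 : derivative (res u (F u) B * res u (F u) D) =
          derivative ((res u (F u) B + C (m ^ 2 ^ (k - (i + 1))) * res u (F u) D) *
            res u (F u) D) := by
        have h6 : (res u (F u) B + C (m ^ 2 ^ (k - (i + 1))) * res u (F u) D) * res u (F u) D =
            res u (F u) B * res u (F u) D + C (m ^ 2 ^ (k - (i + 1))) * res u (F u) D ^ 2 := by
          ring
        rw [h6, derivative_add, derivative_C_mul, derivative_sq, mul_zero, add_zero]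
      rw [h5]
      exact dvd_derivative_of_even hNeven (Dvd.dvd.mul_right h2 _)
    · rw [hSS]
      have h1 := h.hB.res_natDegree_le u (F u)
      have h2 := h.hD.res_natDegree_le u (F u)
      have h3 := natDegree_mul_le (p := res u (F u) B) (q := res u (F u) D)
      have h4 := natDegree_derivative_le (res u (F u) B * res u (F u) D)
      have h5 : 2 ^ (i + 1) * (2 * ρ) < 2 ^ (i + 1) * (N * th) := by
        have h6 := h.hρ
        have h7 := S.four
        have h8 : 2 ^ (i + 1) * (N * th) = s * th := by rw [← mul_assoc, hNs]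
        rw [h8, h7]
        have h9 : 2 ^ (i + 1) * (2 * ρ) = 4 * (2 ^ i * ρ) := by rw [pow_succ]; ring
        rw [h9, mul_assoc]
        omega
      have h6 := Nat.lt_of_mul_lt_mul_left h5
      omega
  have haM : ∀ u, res u (F u) A = C (u ^ e) * res u (F u) B + C (F u ^ e) * res u (F u) D := by
    intro u
    have h1 := h.hM u
    rw [← he] at h1
    linear_combination h1 - (C (u ^ e) * res u (F u) B + C (F u ^ e) * res u (F u) D) *
      twoX (K := K)
  have hrle : ρ ≤ 2 ^ i * ρ := Nat.le_mul_of_pos_left ρ h2i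
  have hdeg : ∀ {P R : BP K}, TL P (ρ + 1) → TL R (ρ + 1) → TL (P * R) (2 * (2 ^ i * ρ) + 1) := by
    intro P R hP hR
    exact (hP.mul hR).mono (by omega)
  obtain ⟨R1, -, hR1⟩ := lemmaT S.card (by omega) h.hmin (hdeg h.hB h.hD) (by
    intro u
    rw [map_mul]
    exact hbd u)
  obtain ⟨R2, -, hR2⟩ := lemmaT S.card (by omega) h.hmin (hdeg h.hA h.hD) (by
    intro u
    rw [map_mul, haM u]
    have h6 : (C (u ^ e) * res u (F u) B + C (F u ^ e) * res u (F u) D) * res u (F u) D =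
      C (u ^ e) * (res u (F u) B * res u (F u) D) + C (F u ^ e) * res u (F u) D ^ 2 := by ring
    rw [h6, derivative_add, derivative_C_mul, derivative_C_mul, hbd, derivative_sq]
    simp)
  obtain ⟨R3, -, hR3⟩ := lemmaT S.card (by omega) h.hmin (hdeg h.hA h.hB) (by
    intro u
    rw [map_mul, haM u]
    have h6 : (C (u ^ e) * res u (F u) B + C (F u ^ e) * res u (F u) D) * res u (F u) B =
      C (u ^ e) * res u (F u) B ^ 2 + C (F u ^ e) * (res u (F u) B * res u (F u) D) := by ring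
    rw [h6, derivative_add, derivative_C_mul, derivative_C_mul, hbd, derivative_sq]
    simp)
  obtain ⟨x1, x2, x3⟩ := hmin' _ _ _ (der_InM isDer_X hR1 hR2 hR3 h.hM h.hP)
    (isDer_X.deg _ _ h.hA) (isDer_X.deg _ _ h.hB) (isDer_X.deg _ _ h.hD)
  obtain ⟨y1, y2, y3⟩ := hmin' _ _ _ (der_InM isDer_Y hR1 hR2 hR3 h.hM h.hP)
    (isDer_Y.deg _ _ h.hA) (isDer_Y.deg _ _ h.hB) (isDer_Y.deg _ _ h.hD)
  have sA := eq_sq_of_deriv x1 y1
  have sB := eq_sq_of_deriv x2 y2
  have sD := eq_sq_of_deriv x3 y3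
  set A' := half 0 0 A with hA'
  set B' := half 0 0 B with hB'
  set D' := half 0 0 D with hD'
  -- the new triple is in the next module
  have hM' : InM F (2 ^ (k - (i + 1 + 1))) A' B' D' := by
    intro u
    have h1 := h.hM u
    rw [sA, sB, sD, map_pow (res u (F u)), map_pow (res u (F u)), map_pow (res u (F u))] at h1
    have h3 : ∀ x : K, (x ^ 2 ^ (k - (i + 1 + 1))) ^ 2 = x ^ 2 ^ (k - (i + 1)) := by
      intro x
      rw [← pow_mul, ← pow_succ]
      congr 2
      omega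
    have h4 : (res u (F u) A' + C (u ^ 2 ^ (k - (i + 1 + 1))) * res u (F u) B' +
        C (F u ^ 2 ^ (k - (i + 1 + 1))) * res u (F u) D') ^ 2 = 0 := by
      rw [add_sq, add_sq, mul_pow, mul_pow, ← C_pow, ← C_pow, h3, h3]
      exact h1
    exact pow_eq_zero_iff (two_ne_zero) |>.1 h4
  have hP' : ∀ u, ¬ (res u (F u) A' = 0 ∧ res u (F u) B' = 0 ∧ res u (F u) D' = 0) := by
    rintro u ⟨h1, h2, h3⟩
    apply h.hP u
    rw [sA, sB, sD, map_pow, map_pow, map_pow, h1, h2, h3]
    simp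
  -- parity of `ρ`
  rcases Nat.even_or_odd' ρ with ⟨n, hn | hn⟩
  · refine ⟨n, A', B', D', ?_, ?_, ?_, ?_, ?_, hM', hP'⟩
    · have := h.hρ
      rw [hn] at this
      rw [pow_succ]
      calc 2 ^ i * 2 * n + 1 = 2 ^ i * (2 * n) + 1 := by ring
        _ ≤ _ := this
    · have := h.hmin
      rw [hn] at this
      rw [pow_succ]
      have h9 : 2 ^ i * 2 * n = 2 ^ i * (2 * n) := by ring
      rw [h9]
      exact this
    · exact TL_half (by rw [← hn]; exact h.hA) 0 0
    · exact TL_half (by rw [← hn]; exact h.hB) 0 0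
    · exact TL_half (by rw [← hn]; exact h.hD) 0 0
  · exfalso
    have tA : TL A' (n + 1) := TL_half_sq (h.hA.mono (by omega))
    have tB : TL B' (n + 1) := TL_half_sq (h.hB.mono (by omega))
    have tD : TL D' (n + 1) := TL_half_sq (h.hD.mono (by omega))
    have hle : 2 ^ (i + 1) * n + 1 ≤ 2 ^ i * ρ := by
      rw [hn, pow_succ]
      have : 2 ^ i * (2 * n + 1) = 2 ^ i * 2 * n + 2 ^ i := by ring
      omega
    obtain ⟨h1, h2, h3⟩ := h.hmin _ _ _ (hM'.pow (i := i + 1) (by omega))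
      ((tA.pow (2 ^ (i + 1))).mono hle) ((tB.pow (2 ^ (i + 1))).mono hle)
      ((tD.pow (2 ^ (i + 1))).mono hle)
    have h4 : 2 ^ (i + 1) ≠ 0 := by positivity
    apply hP' 0
    rw [(pow_eq_zero_iff h4).1 h1, (pow_eq_zero_iff h4).1 h2, (pow_eq_zero_iff h4).1 h3]
    simp

lemma Cfg.steps (S : Cfg K k g s Q t th F) (hSS : ∀ u, (SS F s u).card = th) {ρ : ℕ}
    {A B D : BP K} (h : State F k g th 0 ρ A B D) (i : ℕ) (hi : i + 1 ≤ g) :
    ∃ (ρ' : ℕ) (A' B' D' : BP K), State F k g th i ρ' A' B' D' := by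
  induction i with
  | zero => exact ⟨ρ, A, B, D, h⟩
  | succ i ih =>
    obtain ⟨ρ', A', B', D', h'⟩ := ih (by omega)
    exact S.step hSS (by omega) h'

/-- result of the descent -/
theorem Cfg.descent (S : Cfg K k g s Q t th F) (hSS : ∀ u, (SS F s u).card = th)
    (hex : ∃ (r : ℕ) (A B D : BP K), r + 1 ≤ 2 ^ (g - 2) * th ∧ IsMin F (2 ^ (k - 1)) r ∧
      ¬ (A = 0 ∧ B = 0 ∧ D = 0) ∧ TL A (r + 1) ∧ TL B (r + 1) ∧ TL D (r + 1) ∧
      InM F (2 ^ (k - 1)) A B D) :
    ∃ (ε : ℕ) (A B D : BP K), 2 * ε < th ∧ IsMin F (2 ^ (k - 1)) (2 ^ (g - 1) * ε) ∧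
      IsMin F (2 ^ (k - g)) ε ∧
      TL A (ε + 1) ∧ TL B (ε + 1) ∧ TL D (ε + 1) ∧ InM F (2 ^ (k - g)) A B D ∧
      ∀ u, ¬ (res u (F u) A = 0 ∧ res u (F u) B = 0 ∧ res u (F u) D = 0) := by
  have hg := S.hg
  have hgk := S.hgk
  obtain ⟨r, A, B, D, hr, hmin, h0, hA, hB, hD, hM⟩ := hex
  have h1 : State F k g th 0 r A B D := by
    refine ⟨by simpa using hr, by simpa using hmin, hA, hB, hD, hM, ?_⟩
    exact S.lemmaP hSS hr hmin h0 hA hB hD hM
  obtain ⟨ε, A', B', D', h⟩ := S.steps hSS h1 (g - 1) (by omega)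
  have hg1 : g - 1 + 1 = g := by omega
  refine ⟨ε, A', B', D', ?_, h.hmin, ?_, h.hA, h.hB, h.hD, ?_, h.hP⟩
  · have h2 := h.hρ
    have h3 : 2 ^ (g - 1) * ε = 2 ^ (g - 2) * (2 * ε) := by
      have : g - 1 = (g - 2) + 1 := by omega
      rw [this, pow_succ]; ring
    rw [h3] at h2
    exact Nat.lt_of_mul_lt_mul_left (Nat.lt_of_succ_le h2)
  · have := h.hmin.up (by omega)
    rwa [hg1] at this
  · have := h.hM
    rwa [hg1] at this

end Pool.Agent.Helper1.Niho4
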