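import Pool.Agent.Helper1.Niho4.Basic

set_option autoImplicit false
set_option linter.unusedSectionVars false

/-!
# Numbers
-/

namespace Pool.Agent.Helper1.Niho4

open Polynomial Finset Classical

variable {K : Type} [Field K] [Fintype K]
variable {k g s Q t th : ℕ} {F : K → K}

lemma Cfg.four (S : Cfg K k g s Q t th F) : s = 4 * 2 ^ (g - 2) := by
  have h := S.hg
  rw [S.hs]
  obtain ⟨n, rfl⟩ : ∃ n, g = n + 2 := ⟨g - 2, by omega⟩
  rw [Nat.add_sub_cancel, pow_add]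
  ring

lemma Cfg.s_ge (S : Cfg K k g s Q t th F) : 4 ≤ s := by
  rw [S.four]
  have : 0 < 2 ^ (g - 2) := by positivity
  omega

lemma Cfg.Q_ge (S : Cfg K k g s Q t th F) : s ≤ Q := by
  rw [S.hs, S.hQ]
  apply Nat.pow_le_pow_right (by norm_num)
  have := S.hgk
  omega

lemma Cfg.sQ (S : Cfg K k g s Q t th F) : 2 ^ k = s * Q := by
  rw [S.hs, S.hQ, ← pow_add]
  congr 1
  have := S.hgk
  omega

lemma Cfg.s_th (S : Cfg K k g s Q t th F) : (s - 1) * th + 1 = 2 ^ k := by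
  rw [S.sQ, S.hQt, S.hth]
  have := S.s_ge
  obtain ⟨n, hn⟩ : ∃ n, s = n + 1 := ⟨s - 1, by omega⟩
  rw [hn]
  simp only [Nat.add_sub_cancel]
  ring

lemma Cfg.t_pos (S : Cfg K k g s Q t th F) : 1 ≤ t := by
  have h1 := S.Q_ge
  have h2 := S.s_ge
  have h3 := S.hQt
  rcases Nat.eq_zero_or_pos t with h | h
  · rw [h, mul_zero] at h3
    omega
  · exact h

lemma Cfg.Q_le (S : Cfg K k g s Q t th F) : Q ≤ th := by
  rw [S.hQt, S.hth]
  have := Nat.mul_le_mul_right t (Nat.sub_le s 1)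
  omega

lemma Cfg.Qt (S : Cfg K k g s Q t th F) : Q + t = th := by
  rw [S.hQt, S.hth]
  have := S.s_ge
  obtain ⟨n, hn⟩ : ∃ n, s = n + 1 := ⟨s - 1, by omega⟩
  rw [hn]
  simp only [Nat.add_sub_cancel]
  ring

lemma zero_of_many {S : Finset K} {N : ℕ} {P : K[X]} (h : ∀ m ∈ S, (X - C m) ^ N ∣ P)
    (hdeg : P.natDegree < N * S.card) : P = 0 := by
  by_contra hne
  have h1 : ∏ m ∈ S, (X - C m) ^ N ∣ P := by
    apply Finset.prod_dvd_of_coprime
    · intro a _ b _ hab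
      exact (pairwise_coprime_X_sub_C (K := K) Function.injective_id hab).pow
    · exact h
  have h2 := natDegree_le_of_dvd h1 hne
  have h3 : (∏ m ∈ S, (X - C m) ^ N).natDegree = N * S.card := by
    rw [natDegree_prod_of_monic _ _ (fun m _ => (monic_X_sub_C m).pow N)]
    simp [mul_comm]
  omega

end Pool.Agent.Helper1.Niho4
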