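import Pool.Agent.Helper1.Niho4.Contact
import Pool.Agent.Helper1.Niho4.Num

set_option autoImplicit false
set_option linter.unusedSectionVars false

/-!
# An element of minimal degree does not vanish on a line; square roots of polynomials with zero
tangential derivative
-/

namespace Pool.Agent.Helper1.Niho4

open Polynomial Finset Classical

section quot
variable {K : Type} [Field K]

/-- division by the equation of a line -/
lemma exists_quot {P : BP K} {n : ℕ} (h : TL P (n + 1)) {u f : K} (h0 : res u f P = 0) :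
    ∃ R : BP K, TL R n ∧ P = (X - C (C u * X + C f)) * R := by
  set a : K[X] := C u * X + C f with ha
  have hroot : P.IsRoot a := h0
  refine ⟨P /ₘ (X - C a), ?_, (mul_divByMonic_eq_iff_isRoot.2 hroot).symm⟩
  intro i j hij
  rw [coeff_divByMonic_X_sub_C, finsetSum_coeff]
  apply Finset.sum_eq_zero
  intro l hl
  rw [Finset.mem_Icc] at hl
  have h1 := h.natDegree_le
  have h2 := h.coeff_natDegree_le (i := l) (by omega)
  have h3 : (a ^ (l - (i + 1))).natDegree ≤ l - (i + 1) := by
    have h4 : a.natDegree ≤ 1 := natDegree_linear_le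
    calc _ ≤ (l - (i + 1)) * a.natDegree := natDegree_pow_le
      _ ≤ (l - (i + 1)) * 1 := Nat.mul_le_mul_left _ h4
      _ = _ := mul_one _
  apply coeff_eq_zero_of_natDegree_lt
  have h5 := natDegree_mul_le (p := a ^ (l - (i + 1))) (q := P.coeff l)
  omega

end quot

variable {K : Type} [Field K] [Fintype K] [CharP K 2]
variable {k g s Q t th : ℕ} {F : K → K}

lemma twoX : (2 : K[X]) = 0 := by
  have := CharP.cast_eq_zero (K[X]) 2
  exact_mod_cast this

lemma two0 : (2 : K) = 0 := by
  have := CharP.cast_eq_zero K 2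
  exact_mod_cast this

theorem Cfg.lemmaP (S : Cfg K k g s Q t th F) (hSS : ∀ u, (SS F s u).card = th)
    {r : ℕ} (hr : r + 1 ≤ 2 ^ (g - 2) * th)
    (hmin : IsMin F (2 ^ (k - 1)) r) {A B D : BP K} (h0 : ¬ (A = 0 ∧ B = 0 ∧ D = 0))
    (hA : TL A (r + 1)) (hB : TL B (r + 1)) (hD : TL D (r + 1))
    (hM : InM F (2 ^ (k - 1)) A B D) (u : K) :
    ¬ (res u (F u) A = 0 ∧ res u (F u) B = 0 ∧ res u (F u) D = 0) := by
  rintro ⟨hA0, hB0, hD0⟩
  obtain ⟨A', hA', rfl⟩ := exists_quot hA hA0
  obtain ⟨B', hB', rfl⟩ := exists_quot hB hB0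
  obtain ⟨D', hD', rfl⟩ := exists_quot hD hD0
  set l : BP K := X - C (C u * X + C (F u)) with hl
  have hs4 := S.s_ge
  have hk1 : 1 ≤ k := by have := S.hg; have := S.hgk; omega
  have hne : ∀ v, v ≠ u → ∀ (A' B' D' : BP K), (res v (F v) (l * A') + C (v ^ 2 ^ (k - 1)) *
      res v (F v) (l * B') + C (F v ^ 2 ^ (k - 1)) * res v (F v) (l * D') = 0) →
      res v (F v) A' + C (v ^ 2 ^ (k - 1)) * res v (F v) B' + C (F v ^ 2 ^ (k - 1)) *
      res v (F v) D' = 0 := by
    intro v hv A' B' D' h
    rw [map_mul, map_mul, map_mul] at h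
    have h1 : res v (F v) l ≠ 0 := by
      intro h2
      rw [hl, map_sub, res_X, res_C] at h2
      have h3 := congrArg (fun p : K[X] => p.coeff 1) h2
      simp only [coeff_sub, coeff_add, coeff_C_mul, coeff_X_one, mul_one, coeff_zero] at h3
      simp only [coeff_C, if_neg (one_ne_zero), add_zero] at h3
      exact hv (sub_eq_zero.1 h3)
    have h4 : res v (F v) l * (res v (F v) A' + C (v ^ 2 ^ (k - 1)) * res v (F v) B' +
        C (F v ^ 2 ^ (k - 1)) * res v (F v) D') = 0 := by
      linear_combination h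
    exact (mul_eq_zero.1 h4).resolve_left h1
  have hM' : InM F (2 ^ (k - 1)) A' B' D' := by
    intro v
    by_cases hv : v = u
    · subst hv
      apply zero_of_many (S := SS F s v) (N := s / 2 - 1)
      · intro m hm
        rw [mem_SS] at hm
        set c := F v + m * v with hc
        have hvm : v ∈ blk F c m := mem_blk.2 hc.symm
        obtain ⟨h1, h2⟩ := contact S.card le_rfl hk1 (N := s / 2 - 1) (A := A') (B := B')
          (D := D') (U := (blk F c m).erase v) (Finset.erase_subset _ _) (by
            intro w hw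
            rw [Finset.mem_erase] at hw
            exact hne w hw.1 A' B' D' (hM w)) (by
            intro j hj
            rw [Finset.card_erase_of_mem hvm, hm]
            omega) hvm
        have h3 : c ^ 2 ^ (k - 1) = F v ^ 2 ^ (k - 1) + m ^ 2 ^ (k - 1) * v ^ 2 ^ (k - 1) := by
          rw [hc, add_pow_char_pow, mul_pow]
        rw [h3] at h1
        have h4 := dvd_add h1 (Dvd.dvd.mul_left h2 (C (v ^ 2 ^ (k - 1))))
        have h5 : res v (F v) A' + C (v ^ 2 ^ (k - 1)) * res v (F v) B' +
            C (F v ^ 2 ^ (k - 1)) * res v (F v) D' = res v (F v) A' +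
            C (F v ^ 2 ^ (k - 1) + m ^ 2 ^ (k - 1) * v ^ 2 ^ (k - 1)) * res v (F v) D' +
            C (v ^ 2 ^ (k - 1)) * (res v (F v) B' + C (m ^ 2 ^ (k - 1)) * res v (F v) D') := by
          simp only [C_add, C_mul]
          linear_combination - (C (m ^ 2 ^ (k - 1)) * C (v ^ 2 ^ (k - 1)) * res v (F v) D') *
            twoX (K := K)
        rw [h5]
        exact h4
      · rw [hSS]
        have hr0 : r ≠ 0 := by
          rintro rfl
          apply h0
          rw [hA'.eq_zero, hB'.eq_zero, hD'.eq_zero]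
          simp
        obtain ⟨r', rfl⟩ : ∃ r', r = r' + 1 := ⟨r - 1, by omega⟩
        have h1 := hA'.res_natDegree_le v (F v)
        have h2 := hB'.res_natDegree_le v (F v)
        have h3 := hD'.res_natDegree_le v (F v)
        have h4 : (res v (F v) A' + C (v ^ 2 ^ (k - 1)) * res v (F v) B' +
            C (F v ^ 2 ^ (k - 1)) * res v (F v) D').natDegree ≤ r' := by
          refine (natDegree_add_le _ _).trans (max_le ((natDegree_add_le _ _).trans
            (max_le h1 ?_)) ?_)
          · exact (natDegree_C_mul_le _ _).trans h2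
          · exact (natDegree_C_mul_le _ _).trans h3
        have h5 : 2 ^ (g - 2) * th ≤ (s / 2 - 1) * th := by
          apply Nat.mul_le_mul_right
          have := S.four
          have : 0 < 2 ^ (g - 2) := by positivity
          omega
        omega
    · exact hne v hv A' B' D' (hM v)
  obtain ⟨h1, h2, h3⟩ := hmin A' B' D' hM' hA' hB' hD'
  apply h0
  rw [h1, h2, h3]
  simp

theorem lemmaT (hK : Fintype.card K = 2 ^ k) (hk : 1 ≤ k) {r : ℕ}
    (hmin : IsMin F (2 ^ (k - 1)) r) {P : BP K} (hP : TL P (2 * r + 1))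
    (h : ∀ u, derivative (res u (F u) P) = 0) : ∃ R : BP K, TL R (r + 1) ∧ P = R ^ 2 := by
  have hdec := sq_decomp P
  set f0 := half 0 0 P with hf0
  set f1 := half 1 0 P with hf1
  set f2 := half 0 1 P with hf2
  set f3 := half 1 1 P with hf3
  have hM : InM F (2 ^ (k - 1)) f2 f1 f3 := by
    intro u
    have h1 := h u
    rw [hdec] at h1
    simp only [map_add, map_mul, map_pow, res_X, res_C] at h1
    have h2 : ∀ p : K[X], derivative (p ^ 2) = 0 := by
      intro p
      rw [derivative_pow]
      simp [CharTwo.two_eq_zero]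
    have h3 : C u * (res u (F u) f1) ^ 2 + (res u (F u) f2) ^ 2 +
        C (F u) * (res u (F u) f3) ^ 2 = 0 := by
      simp only [derivative_add, derivative_mul, h2, derivative_C, derivative_X] at h1
      linear_combination h1 - (X * C u * (res u (F u) f3) ^ 2) * twoX (K := K)
    have h4 : ∀ x : K, (x ^ 2 ^ (k - 1)) ^ 2 = x := fun x => frob_inv (i := 1) hK hk x
    have h5 : (res u (F u) f2 + C (u ^ 2 ^ (k - 1)) * res u (F u) f1 +
        C (F u ^ 2 ^ (k - 1)) * res u (F u) f3) ^ 2 = 0 := by
      have h6 : ∀ a b : K[X], (a + b) ^ 2 = a ^ 2 + b ^ 2 := fun a b => by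
        linear_combination (a * b) * twoX (K := K)
      rw [h6, h6, mul_pow, mul_pow, ← C_pow, ← C_pow, h4, h4]
      linear_combination h3
    exact pow_eq_zero_iff (two_ne_zero) |>.1 h5
  obtain ⟨h1, h2, h3⟩ := hmin f2 f1 f3 hM (TL_half' hP (by norm_num)) (TL_half' hP (by norm_num))
    (TL_half' hP (by norm_num))
  refine ⟨f0, TL_half hP 0 0, ?_⟩
  rw [h1, h2, h3] at hdec
  simpa using hdec

end Pool.Agent.Helper1.Niho4
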