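import Pool.Agent.Helper1.Niho4.Contact
import Pool.Agent.Helper1.Niho4.Num
import Pool.Agent.Helper1.Niho4.LemmaP

set_option autoImplicit false
set_option linter.unusedSectionVars false

/-!
# Existence of an element of small degree in the first module
-/

namespace Pool.Agent.Helper1.Niho4

open Polynomial Finset Classical

section poly

variable {K : Type} [Field K]

/-- exponents of total degree `< n` -/
def Tri (n : ℕ) : Finset (Σ _ : ℕ, ℕ) := (range n).sigma fun i => range (n - i)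

lemma mem_Tri {n : ℕ} {x : Σ _ : ℕ, ℕ} : x ∈ Tri n ↔ x.1 + x.2 < n := by
  unfold Tri
  rw [Finset.mem_sigma, Finset.mem_range, Finset.mem_range]
  omega

lemma card_Tri (n : ℕ) : 2 * (Tri n).card = n * (n + 1) := by
  unfold Tri
  rw [Finset.card_sigma]
  simp only [Finset.card_range]
  induction n with
  | zero => simp
  | succ n ih =>
    rw [Finset.sum_range_succ']
    have h1 : ∑ i ∈ range n, (n + 1 - (i + 1)) = ∑ i ∈ range n, (n - i) := by
      apply Finset.sum_congr rfl
      intro i _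
      omega
    rw [h1, mul_add, ih]
    simp only [Nat.sub_zero]
    ring

/-- the polynomial with given coefficients -/
noncomputable def pol (n : ℕ) (a : (Σ _ : ℕ, ℕ) → K) : BP K :=
  ∑ x ∈ Tri n, monomial x.1 (monomial x.2 (a x))

lemma coeff_pol (n : ℕ) (a : (Σ _ : ℕ, ℕ) → K) (i j : ℕ) :
    ((pol n a).coeff i).coeff j = if i + j < n then a ⟨i, j⟩ else 0 := by
  unfold pol
  rw [finsetSum_coeff, finsetSum_coeff]
  have h1 : ∀ x ∈ Tri n, ((monomial x.1 (monomial x.2 (a x)) : BP K).coeff i).coeff j =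
      if x = ⟨i, j⟩ then a x else 0 := by
    rintro ⟨x1, x2⟩ _
    rw [coeff_monomial]
    by_cases h : x1 = i
    · rw [if_pos h, coeff_monomial]
      by_cases h' : x2 = j
      · rw [if_pos h', if_pos (by rw [h, h'])]
      · rw [if_neg h', if_neg]
        intro h2
        simp only [Sigma.mk.injEq, heq_eq_eq] at h2
        exact h' h2.2
    · rw [if_neg h, coeff_zero, if_neg]
      intro h2
      simp only [Sigma.mk.injEq] at h2
      exact h h2.1
  rw [Finset.sum_congr rfl h1, Finset.sum_ite_eq']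
  simp only [mem_Tri]

lemma TL_pol (n : ℕ) (a : (Σ _ : ℕ, ℕ) → K) : TL (pol n a) n := by
  intro i j hij
  rw [coeff_pol, if_neg (by omega)]

lemma pol_sub (n : ℕ) (a b : (Σ _ : ℕ, ℕ) → K) :
    pol n (fun x => a x - b x) = pol n a - pol n b := by
  unfold pol
  rw [← Finset.sum_sub_distrib]
  apply Finset.sum_congr rfl
  intro x _
  rw [map_sub, map_sub]

end poly

variable {K : Type} [Field K] [Fintype K] [CharP K 2]
variable {k g s Q t th : ℕ} {F : K → K}

/-- a nontrivial solution of the jet conditions -/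
lemma exists_jets (e n κ : ℕ) (L : Finset (K × K))
    (hcard : 2 * (L.card * (κ * (κ + 1))) < 3 * (n * (n + 1))) :
    ∃ A B D : BP K, ¬ (A = 0 ∧ B = 0 ∧ D = 0) ∧ TL A n ∧ TL B n ∧ TL D n ∧
      ∀ p ∈ L, ∀ j < κ, (jet p.1 p.2 (A + C (C (p.1 ^ e)) * D)).coeff j = 0 ∧
        (jet p.1 p.2 (B + C (C (p.2 ^ e)) * D)).coeff j = 0 := by
  let J : Finset (Σ _ : ℕ, ℕ) := (range κ).sigma fun j => range (j + 1)
  have hJ : 2 * J.card = κ * (κ + 1) := by
    simp only [J, Finset.card_sigma, Finset.card_range]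
    clear hcard
    induction κ with
    | zero => simp
    | succ κ ih =>
      rw [Finset.sum_range_succ, mul_add, ih]
      ring
  let V := Fin 3 × (Tri n) → K
  let W := L × J × Fin 2 → K
  let ext : V → Fin 3 → (Σ _ : ℕ, ℕ) → K := fun a z x => if h : x ∈ Tri n then a (z, ⟨x, h⟩) else 0
  let PA : V → K × K → BP K := fun a p =>
    pol n (ext a 0) + C (C (p.1 ^ e)) * pol n (ext a 2)
  let PB : V → K × K → BP K := fun a p =>
    pol n (ext a 1) + C (C (p.2 ^ e)) * pol n (ext a 2)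
  let f : V → W := fun a w =>
    if w.2.2 = 0 then ((jet w.1.1.1 w.1.1.2 (PA a w.1.1)).coeff w.2.1.1.1).coeff w.2.1.1.2
    else ((jet w.1.1.1 w.1.1.2 (PB a w.1.1)).coeff w.2.1.1.1).coeff w.2.1.1.2
  have hq : 1 < Fintype.card K := Fintype.one_lt_card
  have hlt : Fintype.card W < Fintype.card V := by
    rw [Fintype.card_fun, Fintype.card_fun]
    apply Nat.pow_lt_pow_right hq
    rw [Fintype.card_prod, Fintype.card_prod, Fintype.card_prod, Fintype.card_fin,
      Fintype.card_fin, Fintype.card_coe, Fintype.card_coe, Fintype.card_coe]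
    have h1 := card_Tri n
    have h2 : 2 * (L.card * (J.card * 2)) = 2 * (L.card * (κ * (κ + 1))) := by
      rw [← hJ]; ring
    have h3 : 2 * (3 * (Tri n).card) = 3 * (n * (n + 1)) := by rw [← h1]; ring
    omega
  obtain ⟨a, b, hab, hf⟩ := Fintype.exists_ne_map_eq_of_card_lt f hlt
  let cc : V := fun x => a x - b x
  have hext : ∀ z, ext cc z = fun x => ext a z x - ext b z x := by
    intro z
    funext x
    simp only [ext, cc]
    split_ifs
    · rfl
    · rw [sub_zero]
  have hpol : ∀ z, pol n (ext cc z) = pol n (ext a z) - pol n (ext b z) := by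
    intro z
    rw [hext, pol_sub]
  refine ⟨pol n (ext cc 0), pol n (ext cc 1), pol n (ext cc 2), ?_, TL_pol _ _, TL_pol _ _,
    TL_pol _ _, ?_⟩
  · rintro ⟨h0, h1, h2⟩
    apply hab
    funext x
    obtain ⟨z, x, hx⟩ := x
    have hz : pol n (ext cc z) = 0 := by
      fin_cases z
      · exact h0
      · exact h1
      · exact h2
    have h3 := coeff_pol n (ext cc z) x.1 x.2
    rw [hz, coeff_zero, coeff_zero, if_pos (mem_Tri.1 hx)] at h3
    simp only [ext, cc] at h3
    rw [dif_pos hx] at h3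
    exact sub_eq_zero.1 h3.symm
  · intro p hp j hj
    have hA : ∀ l, l < j + 1 →
        ((jet p.1 p.2 (PA a p)).coeff j).coeff l = ((jet p.1 p.2 (PA b p)).coeff j).coeff l := by
      intro l hl
      have := congrFun hf (⟨p, hp⟩, ⟨⟨j, l⟩, by
        simp only [J, Finset.mem_sigma, Finset.mem_range]; exact ⟨hj, hl⟩⟩, 0)
      simpa [f] using this
    have hB : ∀ l, l < j + 1 →
        ((jet p.1 p.2 (PB a p)).coeff j).coeff l = ((jet p.1 p.2 (PB b p)).coeff j).coeff l := by
      intro l hl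
      have := congrFun hf (⟨p, hp⟩, ⟨⟨j, l⟩, by
        simp only [J, Finset.mem_sigma, Finset.mem_range]; exact ⟨hj, hl⟩⟩, 1)
      simpa [f] using this
    have eA : pol n (ext cc 0) + C (C (p.1 ^ e)) * pol n (ext cc 2) = PA a p - PA b p := by
      simp only [PA]
      rw [hpol, hpol]; ring
    have eB : pol n (ext cc 1) + C (C (p.2 ^ e)) * pol n (ext cc 2) = PB a p - PB b p := by
      simp only [PB]
      rw [hpol, hpol]; ring
    constructor
    · rw [eA]
      ext l
      rw [coeff_zero]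
      by_cases hl : l < j + 1
      · rw [map_sub, coeff_sub, coeff_sub, hA l hl, sub_self]
      · exact coeff_eq_zero_of_natDegree_lt (lt_of_le_of_lt (Sl.jet p.1 p.2 _ j) (by omega))
    · rw [eB]
      ext l
      rw [coeff_zero]
      by_cases hl : l < j + 1
      · rw [map_sub, coeff_sub, coeff_sub, hB l hl, sub_self]
      · exact coeff_eq_zero_of_natDegree_lt (lt_of_le_of_lt (Sl.jet p.1 p.2 _ j) (by omega))

/-- existence of an element of small degree in the first module -/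
theorem Cfg.exist (S : Cfg K k g s Q t th F) (hSS : ∀ u, (SS F s u).card = th)
    (hLL : (LL F s).card = Q * th) :
    ∃ A B D : BP K, ¬ (A = 0 ∧ B = 0 ∧ D = 0) ∧ TL A (2 ^ (g - 2) * th) ∧
      TL B (2 ^ (g - 2) * th) ∧ TL D (2 ^ (g - 2) * th) ∧ InM F (2 ^ (k - 1)) A B D := by
  have hg := S.hg
  have hgk := S.hgk
  have hs4 := S.s_ge
  have hQt := S.hQt
  have hth := S.hth
  have hQle := S.Q_le
  have ht := S.t_pos
  set κ := if g = 2 then 1 else 2 with hκ
  have hκ1 : 1 ≤ κ := by rw [hκ]; split_ifs <;> omega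
  have hle : κ * th ≤ 2 ^ (g - 2) * th := by
    apply Nat.mul_le_mul_right
    rw [hκ]
    split_ifs with h
    · exact Nat.one_le_two_pow
    · calc 2 = 2 ^ 1 := rfl
        _ ≤ 2 ^ (g - 2) := Nat.pow_le_pow_right (by norm_num) (by omega)
  have hcount : 2 * (Q * (κ + 1)) < 3 * (κ * th + 1) := by
    rw [hκ]
    split_ifs with h
    · have hs : s = 4 := by rw [S.hs, h]; norm_num
      rw [hs] at hQt hth
      omega
    · omega
  have hthpos : 0 < th := by omega
  obtain ⟨A, B, D, h0, hA, hB, hD, hjet⟩ := exists_jets (2 ^ (k - 1)) (κ * th) κ (LL F s) (by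
    rw [hLL]
    calc 2 * (Q * th * (κ * (κ + 1))) = (2 * (Q * (κ + 1))) * (κ * th) := by ring
      _ < (3 * (κ * th + 1)) * (κ * th) :=
          Nat.mul_lt_mul_of_pos_right hcount (Nat.mul_pos (by omega) hthpos)
      _ = 3 * (κ * th * (κ * th + 1)) := by ring)
  refine ⟨A, B, D, h0, hA.mono hle, hB.mono hle, hD.mono hle, ?_⟩
  intro u
  apply zero_of_many (S := SS F s u) (N := κ)
  · intro m hm
    rw [mem_SS] at hm
    set c := F u + m * u with hc
    have h1 : ∀ j < κ, (jet c m (A + C (C (c ^ 2 ^ (k - 1))) * D)).coeff j = 0 ∧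
        (jet c m (B + C (C (m ^ 2 ^ (k - 1))) * D)).coeff j = 0 :=
      fun j hj => hjet (c, m) (mem_LL.2 hm) j hj
    have h2 := dvd_of_jet hc.symm _ (fun j hj => (h1 j hj).1)
    have h3 := dvd_of_jet hc.symm _ (fun j hj => (h1 j hj).2)
    rw [map_add, map_mul, res_C] at h2 h3
    have h4 : c ^ 2 ^ (k - 1) = F u ^ 2 ^ (k - 1) + m ^ 2 ^ (k - 1) * u ^ 2 ^ (k - 1) := by
      rw [hc, add_pow_char_pow, mul_pow]
    rw [h4] at h2
    have h5 := dvd_add h2 (Dvd.dvd.mul_left h3 (C (u ^ 2 ^ (k - 1))))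
    have h6 : res u (F u) A + C (u ^ 2 ^ (k - 1)) * res u (F u) B +
        C (F u ^ 2 ^ (k - 1)) * res u (F u) D = res u (F u) A +
        C (F u ^ 2 ^ (k - 1) + m ^ 2 ^ (k - 1) * u ^ 2 ^ (k - 1)) * res u (F u) D +
        C (u ^ 2 ^ (k - 1)) * (res u (F u) B + C (m ^ 2 ^ (k - 1)) * res u (F u) D) := by
      simp only [C_add, C_mul]
      linear_combination - (C (m ^ 2 ^ (k - 1)) * C (u ^ 2 ^ (k - 1)) * res u (F u) D) *
        twoX (K := K)
    rw [h6]
    exact h5
  · rw [hSS]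
    have hpos : 0 < κ * th := Nat.mul_pos (by omega) hthpos
    obtain ⟨r', hr'⟩ : ∃ r', κ * th = r' + 1 := ⟨κ * th - 1, by omega⟩
    rw [hr'] at hA hB hD ⊢
    have h1 := hA.res_natDegree_le u (F u)
    have h2 := hB.res_natDegree_le u (F u)
    have h3 := hD.res_natDegree_le u (F u)
    apply Nat.lt_succ_of_le
    refine (natDegree_add_le _ _).trans (max_le ((natDegree_add_le _ _).trans
      (max_le h1 ?_)) ?_)
    · exact (natDegree_C_mul_le _ _).trans h2
    · exact (natDegree_C_mul_le _ _).trans h3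

/-- an element of minimal degree -/
theorem Cfg.exist_min (S : Cfg K k g s Q t th F) (hSS : ∀ u, (SS F s u).card = th)
    (hLL : (LL F s).card = Q * th) :
    ∃ (r : ℕ) (A B D : BP K), r + 1 ≤ 2 ^ (g - 2) * th ∧ IsMin F (2 ^ (k - 1)) r ∧
      ¬ (A = 0 ∧ B = 0 ∧ D = 0) ∧ TL A (r + 1) ∧ TL B (r + 1) ∧ TL D (r + 1) ∧
      InM F (2 ^ (k - 1)) A B D := by
  have hex : ∃ n : ℕ, ∃ A B D : BP K, ¬ (A = 0 ∧ B = 0 ∧ D = 0) ∧ TL A n ∧
      TL B n ∧ TL D n ∧ InM F (2 ^ (k - 1)) A B D := ⟨_, S.exist hSS hLL⟩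
  obtain ⟨A, B, D, h0, hA, hB, hD, hM⟩ := Nat.find_spec hex
  set n := Nat.find hex with hn
  have hn1 : n ≤ 2 ^ (g - 2) * th := Nat.find_min' hex (S.exist hSS hLL)
  have hn0 : n ≠ 0 := by
    intro h
    rw [h] at hA hB hD
    exact h0 ⟨hA.eq_zero, hB.eq_zero, hD.eq_zero⟩
  obtain ⟨r, hr⟩ : ∃ r, n = r + 1 := ⟨n - 1, by omega⟩
  rw [hr] at hA hB hD
  refine ⟨r, A, B, D, by omega, ?_, h0, hA, hB, hD, hM⟩
  intro A' B' D' hM' hA' hB' hD'
  by_contra hcon
  have := Nat.find_min' hex ⟨A', B', D', hcon, hA', hB', hD', hM'⟩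
  omega

end Pool.Agent.Helper1.Niho4
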