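import Pool.Agent.Helper1.Niho4.Descent

set_option autoImplicit false
set_option linter.unusedSectionVars false

/-!
# The degree bound and Part A
-/

namespace Pool.Agent.Helper1.Niho4

open Polynomial Finset Classical

variable {K : Type} [Field K] [Fintype K] [CharP K 2]
variable {k g s Q t th : ℕ} {F : K → K}

lemma zero_of_Xpow {b d : K[X]} {Q : ℕ} (h : b + X ^ Q * d = 0) (hb : b.natDegree < Q) :
    b = 0 ∧ d = 0 := by
  have hd : d = 0 := by
    by_contra hne
    have h1 : b = -(X ^ Q * d) := eq_neg_of_add_eq_zero_left h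
    rw [h1, natDegree_neg, natDegree_X_pow_mul _ hne] at hb
    omega
  rw [hd, mul_zero, add_zero] at h
  exact ⟨h, hd⟩

lemma frobX (a b : K[X]) (n : ℕ) : (a + b) ^ 2 ^ n = a ^ 2 ^ n + b ^ 2 ^ n :=
  add_pow_char_pow a b 2 n

lemma sq_dvd_of_derivative {m : K} {w : K[X]} (h : (X - C m) ∣ w) (h0 : derivative w = 0) :
    (X - C m) ^ 2 ∣ w := by
  obtain ⟨v, rfl⟩ := h
  rw [derivative_mul, derivative_sub, derivative_X, derivative_C, sub_zero, one_mul] at h0
  have h1 : v = (X - C m) * -derivative v := by linear_combination h0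
  rw [h1]
  exact ⟨-derivative v, by ring⟩

/-- the polynomial `w_u` -/
noncomputable def ww (F : K → K) (Q : ℕ) (B D : BP K) (u : K) : K[X] :=
  res u (F u) B + X ^ Q * res u (F u) D

lemma Cfg.eps_lt (S : Cfg K k g s Q t th F) {ε : ℕ} (hε : 2 * ε < th) : ε < Q := by
  have h1 := S.Qt
  have h2 := S.hQt
  have h3 := S.s_ge
  have h4 : 1 * t ≤ (s - 1) * t := Nat.mul_le_mul_right t (by omega)
  omega

lemma Cfg.ww_ne (S : Cfg K k g s Q t th F) {ε : ℕ} {A B D : BP K} (hε : 2 * ε < th)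
    (hB : TL B (ε + 1)) (hM : InM F Q A B D)
    (hP : ∀ u, ¬ (res u (F u) A = 0 ∧ res u (F u) B = 0 ∧ res u (F u) D = 0)) (u : K) :
    ww F Q B D u ≠ 0 := by
  intro h
  have h1 := S.eps_lt hε
  obtain ⟨h2, h3⟩ := zero_of_Xpow h (lt_of_le_of_lt (hB.res_natDegree_le u (F u)) h1)
  apply hP u
  have h4 := hM u
  rw [h2, h3] at h4
  simp only [mul_zero, add_zero] at h4
  exact ⟨h4, h2, h3⟩

lemma Cfg.ww_deg (_S : Cfg K k g s Q t th F) {ε : ℕ} {B D : BP K}
    (hB : TL B (ε + 1)) (hD : TL D (ε + 1)) (u : K) :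
    (ww F Q B D u).natDegree ≤ ε + Q := by
  have h1 := hB.res_natDegree_le u (F u)
  have h2 := hD.res_natDegree_le u (F u)
  unfold ww
  refine (natDegree_add_le _ _).trans (max_le (by omega) ?_)
  have h3 := natDegree_mul_le (p := (X : K[X]) ^ Q) (q := res u (F u) D)
  rw [natDegree_X_pow] at h3
  omega

lemma Cfg.ww_dvd (S : Cfg K k g s Q t th F) {B D : BP K} {u m : K} {n : ℕ} (hn : n ≤ Q)
    (h : (X - C m) ^ n ∣ res u (F u) B + C (m ^ Q) * res u (F u) D) :
    (X - C m) ^ n ∣ ww F Q B D u := by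
  have h1 : (X : K[X]) ^ Q + C (m ^ Q) = (X - C m) ^ Q := by
    have h2 : (X - C m : K[X]) = X + C m := by
      rw [CharTwo.sub_eq_add]
    rw [h2, S.hQ, frobX, ← C_pow]
  have h3 : ww F Q B D u = (res u (F u) B + C (m ^ Q) * res u (F u) D) +
      (X - C m) ^ Q * res u (F u) D := by
    unfold ww
    rw [← h1]
    linear_combination -(C (m ^ Q) * res u (F u) D) * twoX (K := K)
  rw [h3]
  exact dvd_add h (Dvd.dvd.mul_right (pow_dvd_pow _ hn) _)

lemma Cfg.ww_zero (S : Cfg K k g s Q t th F) {A B D : BP K} (hM : InM F Q A B D)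
    {u m : K} (hm : m ∈ SS F s u) : (X - C m) ^ 1 ∣ ww F Q B D u := by
  have hg := S.hg
  have hgk := S.hgk
  have hs4 := S.s_ge
  rw [mem_SS] at hm
  have hvm : u ∈ blk F (F u + m * u) m := mem_blk.2 rfl
  have hQ := S.hQ
  obtain ⟨-, h2⟩ := contact (i := g) S.card (by omega) (by omega) (N := 1) (A := A)
    (B := B) (D := D) (U := blk F (F u + m * u) m) (Finset.Subset.refl _)
    (fun w _ => by rw [← hQ]; exact hM w) (by
      intro j hj
      rw [hm]
      have : j = 0 := by omega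
      rw [this]
      omega) hvm
  rw [← hQ] at h2
  apply S.ww_dvd _ h2
  have := S.Q_ge
  omega

theorem Cfg.gtrick (S : Cfg K k g s Q t th F) (hSS : ∀ u, (SS F s u).card = th)
    {ε : ℕ} {A B D : BP K} (hε : 2 * ε < th)
    (hmin1 : IsMin F (2 ^ (k - 1)) (2 ^ (g - 1) * ε)) (hmin : IsMin F Q ε)
    (hA : TL A (ε + 1)) (hB : TL B (ε + 1)) (hD : TL D (ε + 1))
    (hM : InM F Q A B D)
    (hP : ∀ u, ¬ (res u (F u) A = 0 ∧ res u (F u) B = 0 ∧ res u (F u) D = 0)) :
    (s - 2) * ε < Q := by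
  by_contra hcon
  push Not at hcon
  have hg := S.hg
  have hgk := S.hgk
  have hs4 := S.s_ge
  have hQs := S.Q_ge
  set h := 2 ^ (k - g - 1) with hh
  have hQh : Q = h * 2 := by
    rw [S.hQ, hh, ← pow_succ]
    congr 1
    omega
  set Y : BP K := C X with hY
  set G : BP K := B * D * X ^ Q + D * A * Y ^ Q + A * B with hG
  have hlin : ∀ u : K, (C u * X + C (F u) : K[X]) ^ Q = C (u ^ Q) * X ^ Q + C (F u ^ Q) := by
    intro u
    rw [S.hQ, frobX, mul_pow, ← C_pow, ← C_pow]
  have hsq : ∀ x : K, (x ^ h) ^ 2 = x ^ Q := by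
    intro x
    rw [← pow_mul, hQh]
  have hsqX : ((X : K[X]) ^ h) ^ 2 = X ^ Q := by rw [← pow_mul, hQh]
  have haM : ∀ u, res u (F u) A = C (u ^ Q) * res u (F u) B + C (F u ^ Q) * res u (F u) D := by
    intro u
    have h1 := hM u
    linear_combination h1 - (C (u ^ Q) * res u (F u) B + C (F u ^ Q) * res u (F u) D) *
      twoX (K := K)
  have hresG : ∀ u, res u (F u) G =
      (C (u ^ h) * res u (F u) B + C (F u ^ h) * X ^ h * res u (F u) D) ^ 2 := by
    intro u
    rw [hG, map_add, map_add, map_mul, map_mul, map_mul, map_mul, map_mul, map_pow, map_pow, hY,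
      res_X, res_C, hlin, haM, add_sq, mul_pow, mul_pow, mul_pow, ← C_pow, ← C_pow, hsq, hsq, hsqX]
    linear_combination (C (u ^ Q) * res u (F u) B * res u (F u) D * X ^ Q +
      C (F u ^ Q) * res u (F u) B * res u (F u) D) * twoX (K := K)
  have hXQ : TL ((X : BP K) ^ Q) (Q + 1) := by
    have := (TL.varX (K := K)).pow Q
    rwa [mul_one] at this
  have hYQ : TL (Y ^ Q) (Q + 1) := by
    have := (TL.varY (K := K)).pow Q
    rwa [mul_one] at this
  have hGdeg : TL G (2 * (2 ^ (g - 1) * ε) + 1) := by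
    have h1 : 2 * (2 ^ (g - 1) * ε) = s * ε := by
      rw [S.hs, ← mul_assoc, ← pow_succ']
      congr 2
      omega
    have h2 : ε + ε + Q ≤ s * ε := by
      obtain ⟨n, hn⟩ : ∃ n, s = n + 2 := ⟨s - 2, by omega⟩
      rw [hn] at hcon ⊢
      simp only [Nat.add_sub_cancel] at hcon
      have : (n + 2) * ε = n * ε + 2 * ε := by ring
      omega
    rw [h1, hG]
    exact ((((hB.mul hD).mul hXQ).mono (by omega)).add (((hD.mul hA).mul hYQ).mono (by omega))).add
      ((hA.mul hB).mono (by omega))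
  obtain ⟨R, -, hR⟩ := lemmaT S.card (by omega) hmin1 hGdeg (by
    intro u
    rw [hresG, derivative_sq])
  -- the product of the two polynomials is a square
  have hprod : (B + D * Y ^ Q) * (A + D * X ^ Q) = (R + D * X ^ h * Y ^ h) ^ 2 := by
    have h1 : (R + D * X ^ h * Y ^ h) ^ 2 = R ^ 2 + D ^ 2 * X ^ Q * Y ^ Q := by
      have h2 : (X : BP K) ^ Q = (X ^ h) ^ 2 := by rw [← pow_mul, hQh]
      have h3 : Y ^ Q = (Y ^ h) ^ 2 := by rw [← pow_mul, hQh]
      rw [h2, h3]
      linear_combination (R * D * X ^ h * Y ^ h) * two_BP (K := K)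
    rw [h1, ← hR, hG]
    ring
  have key : ∀ δ : BP K → BP K, IsDer δ → InM F Q (δ A) (δ B) (δ D) := by
    intro δ hδ u
    have h1 : δ ((B + D * Y ^ Q) * (A + D * X ^ Q)) = 0 := by rw [hprod, hδ.sq]
    have h2 : δ (X ^ Q) = 0 := by rw [hQh, pow_mul, hδ.sq]
    have h3 : δ (Y ^ Q) = 0 := by rw [hQh, pow_mul, hδ.sq]
    rw [hδ.mul, hδ.add, hδ.add, hδ.mul, hδ.mul, h2, h3] at h1
    have h4 := congrArg (res u (F u)) h1
    simp only [map_add, map_mul, map_pow, map_zero, mul_zero, add_zero, res_X, hY, res_C,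
      hlin] at h4
    have hw := S.ww_ne hε hB hM hP u
    have hMu := haM u
    unfold ww at hw
    set a := res u (F u) A
    set b := res u (F u) B
    set d := res u (F u) D
    set a' := res u (F u) (δ A)
    set b' := res u (F u) (δ B)
    set d' := res u (F u) (δ D)
    have h5 : (b + X ^ Q * d) * (a' + C (u ^ Q) * b' + C (F u ^ Q) * d') = 0 := by
      rw [hMu] at h4
      have h6 : (b + X ^ Q * d) * (a' + C (u ^ Q) * b' + C (F u ^ Q) * d') =
          (b' + d' * X ^ Q) * (C (u ^ Q) * b + C (F u ^ Q) * d + d *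
            (C (u ^ Q) * X ^ Q + C (F u ^ Q))) + (b + d * X ^ Q) * (a' + d' *
            (C (u ^ Q) * X ^ Q + C (F u ^ Q))) := by
        linear_combination (-(C (u ^ Q) * X ^ Q * (b * d') + C (u ^ Q) * X ^ Q * X ^ Q * (d * d') +
          C (F u ^ Q) * d * (b' + d' * X ^ Q))) * twoX (K := K)
      rw [h6]
      simp only [C_pow] at h4 ⊢
      exact h4
    exact (mul_eq_zero.1 h5).resolve_left hw
  obtain ⟨-, x2, x3⟩ := hmin _ _ _ (key _ isDer_X) (isDer_X.deg _ _ hA) (isDer_X.deg _ _ hB)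
    (isDer_X.deg _ _ hD)
  obtain ⟨-, y2, y3⟩ := hmin _ _ _ (key _ isDer_Y) (isDer_Y.deg _ _ hA) (isDer_Y.deg _ _ hB)
    (isDer_Y.deg _ _ hD)
  have hder : derivative (ww F Q B D 0) = 0 := by
    unfold ww
    rw [derivative_add, derivative_mul, chain, chain, hQh, pow_mul, derivative_sq]
    rw [x2, x3, y2, y3]
    simp
  apply S.ww_ne hε hB hM hP 0
  apply zero_of_many (S := SS F s 0) (N := 2)
  · intro m hm
    have h1 := S.ww_zero hM hm
    rw [pow_one] at h1
    exact sq_dvd_of_derivative h1 hder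
  · rw [hSS]
    have h1 := S.ww_deg hB hD 0
    have h2 := S.Q_le
    omega

/-- **Part A.** -/
theorem Cfg.partA (S : Cfg K k g s Q t th F) (hSS : ∀ u, (SS F s u).card = th)
    (hex : ∃ (r : ℕ) (A B D : BP K), r + 1 ≤ 2 ^ (g - 2) * th ∧ IsMin F (2 ^ (k - 1)) r ∧
      ¬ (A = 0 ∧ B = 0 ∧ D = 0) ∧ TL A (r + 1) ∧ TL B (r + 1) ∧ TL D (r + 1) ∧
      InM F (2 ^ (k - 1)) A B D) :
    ∃ Bad : Finset (K × K), (∀ u : K, (s - 2) *
        ((SS F s u).filter fun m => (F u + m * u, m) ∈ Bad).card ≤ t) ∧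
      ∀ c m : K, (blk F c m).card = s → (c, m) ∉ Bad →
        ∃ a b d e : K, ¬ (a = 0 ∧ b = 0 ∧ d = 0 ∧ e = 0) ∧
          ∀ x ∈ blk F c m, a * x ^ (s + 1) + b * x ^ s + d * x + e = 0 := by
  have hg := S.hg
  have hgk := S.hgk
  have hs4 := S.s_ge
  have hQs := S.Q_ge
  obtain ⟨ε, A, B, D, hε, hmin1, hmin, hA, hB, hD, hM, hP⟩ := S.descent hSS hex
  have hQ := S.hQ
  have hM' : InM F Q A B D := by rw [hQ]; exact hM
  have hε2 := S.gtrick hSS hε hmin1 (by rw [hQ]; exact hmin) hA hB hD hM' hP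
  refine ⟨univ.filter fun p : K × K => (blk F p.1 p.2).card = s ∧
    ¬ ∃ a b d e : K, ¬ (a = 0 ∧ b = 0 ∧ d = 0 ∧ e = 0) ∧
      ∀ x ∈ blk F p.1 p.2, a * x ^ (s + 1) + b * x ^ s + d * x + e = 0, ?_, ?_⟩
  · intro u
    set T := (SS F s u).filter fun m => (F u + m * u, m) ∈ univ.filter fun p : K × K =>
      (blk F p.1 p.2).card = s ∧ ¬ ∃ a b d e : K, ¬ (a = 0 ∧ b = 0 ∧ d = 0 ∧ e = 0) ∧
      ∀ x ∈ blk F p.1 p.2, a * x ^ (s + 1) + b * x ^ s + d * x + e = 0 with hT
    have h1 : ∏ m ∈ SS F s u, (X - C m) ^ (if m ∈ T then 2 else 1) ∣ ww F Q B D u := by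
      apply Finset.prod_dvd_of_coprime
      · intro a _ b _ hab
        exact (pairwise_coprime_X_sub_C (K := K) Function.injective_id hab).pow
      · intro m hm
        by_cases hmT : m ∈ T
        · rw [if_pos hmT]
          rw [hT, Finset.mem_filter, Finset.mem_filter] at hmT
          obtain ⟨-, -, h2, h3⟩ := hmT
          rcases flag S.card (by omega) (by omega) S.hs h2 hM with h4 | h4
          · apply S.ww_dvd (by omega)
            rw [hQ]
            exact h4 u (mem_blk.2 rfl)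
          · exact absurd h4 h3
        · rw [if_neg hmT]
          exact S.ww_zero hM' hm
    have h2 := natDegree_le_of_dvd h1 (S.ww_ne hε hB hM' hP u)
    have h3 : (∏ m ∈ SS F s u, (X - C m) ^ (if m ∈ T then 2 else 1)).natDegree =
        th + T.card := by
      rw [natDegree_prod_of_monic _ _ (fun m _ => (monic_X_sub_C m).pow _)]
      have h4 : ∀ m ∈ SS F s u, ((X - C m) ^ (if m ∈ T then 2 else 1)).natDegree =
          1 + if m ∈ T then 1 else 0 := by
        intro m _
        rw [natDegree_pow, natDegree_X_sub_C]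
        split_ifs <;> rfl
      rw [Finset.sum_congr rfl h4, Finset.sum_add_distrib, Finset.sum_const, hSS, smul_eq_mul,
        mul_one, ← Finset.sum_filter, Finset.sum_const, smul_eq_mul, mul_one]
      congr 2
      ext m
      rw [Finset.mem_filter]
      constructor
      · exact fun h => h.2
      · intro h
        refine ⟨?_, h⟩
        rw [hT] at h
        exact (Finset.mem_filter.1 h).1
    have h4 := S.ww_deg hB hD u
    have h5 := S.Qt
    have h6 := S.hQt
    have h7 : T.card + t ≤ ε := by omega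
    obtain ⟨n, hn⟩ : ∃ n, s = n + 2 := ⟨s - 2, by omega⟩
    rw [hn] at hε2 h6 ⊢
    simp only [Nat.add_sub_cancel] at hε2 ⊢
    have h8 : n + 2 - 1 = n + 1 := by omega
    rw [h8] at h6
    have h9 := Nat.mul_le_mul_left n h7
    rw [mul_add] at h9
    have h10 : (n + 1) * t = n * t + t := by ring
    omega
  · intro c m hcm hbad
    by_contra hcon
    apply hbad
    rw [Finset.mem_filter]
    exact ⟨Finset.mem_univ _, hcm, hcon⟩

end Pool.Agent.Helper1.Niho4
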