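import Pool.Agent.Helper1.Niho4.Basic

set_option autoImplicit false
set_option linter.unusedSectionVars false

/-!
# Part B: from flags on the full lines to additivity
-/

namespace Pool.Agent.Helper1.Niho4

open Polynomial Finset Classical

section aux

variable {K : Type} [Field K] [CharP K 2]

lemma addself (x : K) : x + x = 0 := CharTwo.add_self_eq_zero x

lemma eq_of_add_eq_zero' {x y : K} (h : x + y = 0) : x = y := by
  have := addself y
  have h2 : x = x + (y + y) := by rw [this, add_zero]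
  rw [h2, ← add_assoc, h, zero_add]

lemma add_ne_zero' {x y : K} (h : x ≠ y) : x + y ≠ 0 := fun h' => h (eq_of_add_eq_zero' h')

lemma two_eq_zero' : (2 : K) = 0 := by
  have := CharP.cast_eq_zero K 2
  exact_mod_cast this

lemma lin_zero {β γ x y : K} (hxy : x ≠ y) (hx : β * x + γ = 0) (hy : β * y + γ = 0) :
    β = 0 ∧ γ = 0 := by
  have h1 : β * (x - y) = 0 := by linear_combination hx - hy
  have h2 : β = 0 := by
    rcases mul_eq_zero.mp h1 with h | h
    · exact h
    · exact absurd (sub_eq_zero.mp h) hxy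
  refine ⟨h2, ?_⟩
  rw [h2] at hx
  simpa using hx

lemma quad_zero {α β γ x y z : K} (hxy : x ≠ y) (hxz : x ≠ z) (hyz : y ≠ z)
    (hx : α * x ^ 2 + β * x + γ = 0) (hy : α * y ^ 2 + β * y + γ = 0)
    (hz : α * z ^ 2 + β * z + γ = 0) : α = 0 ∧ β = 0 ∧ γ = 0 := by
  have h1 : (α * (x + y) + β) * (x - y) = 0 := by linear_combination hx - hy
  have h2 : (α * (x + z) + β) * (x - z) = 0 := by linear_combination hx - hz
  have h3 : α * (x + y) + β = 0 := by
    rcases mul_eq_zero.mp h1 with h | h
    · exact h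
    · exact absurd (sub_eq_zero.mp h) hxy
  have h4 : α * (x + z) + β = 0 := by
    rcases mul_eq_zero.mp h2 with h | h
    · exact h
    · exact absurd (sub_eq_zero.mp h) hxz
  have h5 : α * (y - z) = 0 := by linear_combination h3 - h4
  have h6 : α = 0 := by
    rcases mul_eq_zero.mp h5 with h | h
    · exact h
    · exact absurd (sub_eq_zero.mp h) hyz
  rw [h6] at h3 hx
  have h7 : β = 0 := by simpa using h3
  rw [h7] at hx
  exact ⟨h6, h7, by simpa using hx⟩

lemma pow_s_add {g s : ℕ} (hs : s = 2 ^ g) (x y : K) : (x + y) ^ s = x ^ s + y ^ s := by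
  subst hs
  have : Fact (Nat.Prime 2) := ⟨Nat.prime_two⟩
  exact add_pow_char_pow x y 2 g

lemma pow_s_inj {g s : ℕ} (hs : s = 2 ^ g) {x y : K} (h : x ^ s = y ^ s) : x = y := by
  have h1 : (x + y) ^ s = 0 := by rw [pow_s_add hs, h, addself]
  exact eq_of_add_eq_zero' (eq_zero_of_pow_eq_zero h1)

end aux

section partB

variable {K : Type} [Field K] [Fintype K] [CharP K 2]
variable {k g s Q t th : ℕ} {F : K → K}

lemma Cfg.s_ge' (S : Cfg K k g s Q t th F) : 4 ≤ s := by
  rw [S.hs]
  calc 4 = 2 ^ 2 := by norm_num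
    _ ≤ 2 ^ g := Nat.pow_le_pow_right (by norm_num) S.hg

lemma Cfg.sQ' (S : Cfg K k g s Q t th F) : 2 ^ k = s * Q := by
  rw [S.hs, S.hQ, ← pow_add]
  congr 1
  have := S.hgk
  omega

lemma Cfg.s_th' (S : Cfg K k g s Q t th F) : (s - 1) * th + 1 = 2 ^ k := by
  rw [S.sQ', S.hQt, S.hth]
  have := S.s_ge'
  obtain ⟨r, rfl⟩ : ∃ r, s = r + 1 := ⟨s - 1, by omega⟩
  simp only [Nat.add_sub_cancel]
  ring

/-- a line with two points is full -/
lemma Cfg.full (S : Cfg K k g s Q t th F) {c m x y : K} (hx : x ∈ blk F c m)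
    (hy : y ∈ blk F c m) (hxy : x ≠ y) : (blk F c m).card = s := by
  have h2 : 1 < (blk F c m).card := Finset.one_lt_card.mpr ⟨x, hx, y, hy, hxy⟩
  rcases S.line c m with h | h | h
  · omega
  · omega
  · exact h

/-- the rotation of the line -/
noncomputable def rho (δ τ x : K) : K := ((1 + τ) * x + δ) / (x + τ)

lemma rho_add {δ τ x : K} (hx : x ≠ τ) :
    rho δ τ x + (1 + τ) = (δ + τ + τ ^ 2) / (x + τ) := by
  have h : x + τ ≠ 0 := add_ne_zero' hx
  unfold rho
  rw [div_add' _ _ _ h]
  congr 1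
  have h2 := two_eq_zero' (K := K)
  linear_combination (x + τ * x) * h2

lemma mem_base {c a : K} (hc : c ≠ 0) :
    a ∈ blk F (F a + (F (a + c) + F a) / c * a) ((F (a + c) + F a) / c) ∧
    a + c ∈ blk F (F a + (F (a + c) + F a) / c * a) ((F (a + c) + F a) / c) := by
  refine ⟨by rw [mem_blk], ?_⟩
  rw [mem_blk]
  have h2 := two_eq_zero' (K := K)
  field_simp
  linear_combination (c * F (a + c)) * h2

lemma slope_ne {c a : K} (hinj : Function.Injective F) (hc : c ≠ 0) :
    (F (a + c) + F a) / c ≠ 0 := by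
  apply div_ne_zero _ hc
  apply add_ne_zero'
  intro h
  have := hinj h
  apply hc
  simpa using this

/-- the rotated block -/
lemma rot_mem {δ : K} (hδ : ∀ x : K, x ^ 2 + x + δ ≠ 0)
    (hinj : Function.Injective F) (h1 : ∀ x, F (1 + x) = 1 + F x)
    (hrot : ∀ τ x, x ≠ τ → F (rho δ τ x) = rho δ (F τ) (F x)) {a x m : K} (hx : x ≠ a)
    (hm : m ≠ 0) (hF : F x + F a = m * (x + a)) :
    rho δ a x ∈ blk F (F (1 + a) + (δ + F a + F a ^ 2) / (δ + a + a ^ 2) / m * (1 + a))
      ((δ + F a + F a ^ 2) / (δ + a + a ^ 2) / m) := by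
  rw [mem_blk]
  have hFx : F x ≠ F a := fun h => hx (hinj h)
  have e1 : F (rho δ a x) + F (1 + a) = (δ + F a + F a ^ 2) / (F x + F a) := by
    rw [hrot a x hx, h1, rho_add hFx]
  have e2 := rho_add (δ := δ) hx
  have hd : δ + a + a ^ 2 ≠ 0 := by
    have := hδ a
    intro h
    apply this
    linear_combination h
  have hxa : x + a ≠ 0 := add_ne_zero' hx
  have e3 : F (rho δ a x) + F (1 + a) =
      (δ + F a + F a ^ 2) / (δ + a + a ^ 2) / m * (rho δ a x + (1 + a)) := by
    rw [e1, e2, hF]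
    field_simp
  have h2 := two_eq_zero' (K := K)
  linear_combination e3 + ((δ + F a + F a ^ 2) / (δ + a + a ^ 2) / m * rho δ a x -
    F (1 + a)) * h2

lemma rot_ne {δ : K} (hδ : ∀ x : K, x ^ 2 + x + δ ≠ 0) {a x : K} (hx : x ≠ a) :
    rho δ a x ≠ 1 + a := by
  intro h
  have e := rho_add (δ := δ) hx
  rw [h, addself] at e
  have hd : δ + a + a ^ 2 ≠ 0 := by
    have := hδ a
    intro h
    apply this
    linear_combination h
  exact div_ne_zero hd (add_ne_zero' hx) e.symm

/-- the two flags on a block give `F_s`-linearity on the block -/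
theorem Cfg.two_flags (S : Cfg K k g s Q t th F) {δ : K} (hδ : ∀ x : K, x ^ 2 + x + δ ≠ 0)
    (hinj : Function.Injective F) (h1 : ∀ x, F (1 + x) = 1 + F x)
    (hrot : ∀ τ x, x ≠ τ → F (rho δ τ x) = rho δ (F τ) (F x))
    {Bad : Finset (K × K)} (hBad : ∀ c m : K, (blk F c m).card = s → (c, m) ∉ Bad →
        ∃ a b d e : K, ¬ (a = 0 ∧ b = 0 ∧ d = 0 ∧ e = 0) ∧
          ∀ x ∈ blk F c m, a * x ^ (s + 1) + b * x ^ s + d * x + e = 0)
    {a c : K} (hc : c ≠ 0)
    (hb1 : (F a + (F (a + c) + F a) / c * a, (F (a + c) + F a) / c) ∉ Bad)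
    (hb2 : ∀ m', m' = (δ + F a + F a ^ 2) / (δ + a + a ^ 2) / ((F (a + c) + F a) / c) →
      (F (1 + a) + m' * (1 + a), m') ∉ Bad) :
    ∀ x : K, x ^ s = x → F (a + x * c) = F a + x * (F (a + c) + F a) := by
  have h2 := two_eq_zero' (K := K)
  have hs4 := S.s_ge'
  obtain ⟨ha, hac⟩ := mem_base (F := F) (a := a) hc
  have hm := slope_ne (F := F) (a := a) hinj hc
  have hb2' := hb2 _ rfl
  have hmc : (F (a + c) + F a) / c * c = F (a + c) + F a := div_mul_cancel₀ _ hc
  set m := (F (a + c) + F a) / c with hmdef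
  have hne : a ≠ a + c := by
    intro h
    apply hc
    simpa using h.symm
  have hcard := S.full ha hac hne
  -- the slope of the points of the block
  have hslope : ∀ x ∈ blk F (F a + m * a) m, F x + F a = m * (x + a) := by
    intro x hx
    rw [mem_blk] at hx
    linear_combination hx + (F a - m * x) * h2
  have hd : δ + a + a ^ 2 ≠ 0 := by
    have := hδ a
    intro h
    apply this
    linear_combination h
  -- the rotated block is full
  set m' := (δ + F a + F a ^ 2) / (δ + a + a ^ 2) / m with hm'def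
  have hmem' : ∀ x ∈ blk F (F a + m * a) m, x ≠ a →
      rho δ a x ∈ blk F (F (1 + a) + m' * (1 + a)) m' := fun x hx hxa =>
    rot_mem hδ hinj h1 hrot hxa hm (hslope x hx)
  have hbase' : 1 + a ∈ blk F (F (1 + a) + m' * (1 + a)) m' := by rw [mem_blk]
  have hcard' := S.full (hmem' _ hac hne.symm) hbase' (rot_ne hδ hne.symm)
  obtain ⟨a2, b2, d2, e2, hnz2, hR2⟩ := hBad _ _ hcard' hb2'
  obtain ⟨a1, b1, d1, e1, hnz1, hR1⟩ := hBad _ _ hcard hb1
  -- the transported relation
  have hR2' := hR2 _ hbase'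
  have hpow : ∀ x y : K, (x + y) ^ s = x ^ s + y ^ s := pow_s_add S.hs
  have hone : (1 + a) ^ s = 1 + a ^ s := by rw [hpow, one_pow]
  set f := a2 * (1 + a ^ s) * δ + b2 * (1 + a ^ s) * a + d2 * δ + e2 * a with hf
  set G := a2 * δ ^ s * (1 + a) + b2 * δ ^ s + d2 * (1 + a) * a ^ s + e2 * a ^ s with hG
  set H := a2 * δ ^ s * δ + b2 * δ ^ s * a + d2 * δ * a ^ s + e2 * a ^ s * a with hH
  have hE : a2 * (1 + a ^ s) * (1 + a) + b2 * (1 + a ^ s) + d2 * (1 + a) + e2 = 0 := by
    rw [pow_succ, hone] at hR2'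
    linear_combination hR2'
  have hT : ∀ x ∈ blk F (F a + m * a) m, x ≠ a → f * x ^ s + G * x + H = 0 := by
    intro x hx hxa
    have h := hR2 _ (hmem' x hx hxa)
    have hxa' : x + a ≠ 0 := add_ne_zero' hxa
    have hy : rho δ a x * (x + a) = (1 + a) * x + δ := by
      unfold rho
      exact div_mul_cancel₀ _ hxa'
    have hys : (rho δ a x) ^ s * (x ^ s + a ^ s) = (1 + a ^ s) * x ^ s + δ ^ s := by
      rw [← hpow, ← mul_pow, hy, hpow, mul_pow, hone]
    rw [pow_succ] at h
    have key : (a2 * (rho δ a x ^ s * rho δ a x) + b2 * rho δ a x ^ s + d2 * rho δ a x + e2) *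
        ((x ^ s + a ^ s) * (x + a)) = 0 := by rw [h, zero_mul]
    have key2 : (a2 * (rho δ a x ^ s * rho δ a x) + b2 * rho δ a x ^ s + d2 * rho δ a x + e2) *
        ((x ^ s + a ^ s) * (x + a)) =
        a2 * ((rho δ a x) ^ s * (x ^ s + a ^ s)) * (rho δ a x * (x + a)) +
        b2 * ((rho δ a x) ^ s * (x ^ s + a ^ s)) * (x + a) +
        d2 * (rho δ a x * (x + a)) * (x ^ s + a ^ s) + e2 * (x ^ s + a ^ s) * (x + a) := by
      ring
    rw [key2, hys, hy] at key
    rw [hf, hG, hH]
    linear_combination key - x ^ s * x * hE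
  have hdet : ∀ p r : K, p * (1 + a) + r = 0 → p * δ + r * a = 0 → p = 0 ∧ r = 0 := by
    intro p r h3 h4
    have h5 : p * (δ + a + a ^ 2) = 0 := by
      linear_combination h4 - a * h3 + (p * a + p * a ^ 2) * h2
    have h6 : p = 0 := by
      rcases mul_eq_zero.mp h5 with h | h
      · exact h
      · exact absurd h hd
    rw [h6] at h3
    exact ⟨h6, by simpa using h3⟩
  have hds : δ ^ s + a ^ s + a ^ s * a ^ s ≠ 0 := by
    have h3 : (δ + a + a ^ 2) ^ s ≠ 0 := pow_ne_zero _ hd
    rw [hpow, hpow, sq, mul_pow] at h3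
    exact h3
  have hdet' : ∀ p r : K, p * (1 + a ^ s) + r = 0 → p * δ ^ s + r * a ^ s = 0 →
      p = 0 ∧ r = 0 := by
    intro p r h3 h4
    have h5 : p * (δ ^ s + a ^ s + a ^ s * a ^ s) = 0 := by
      linear_combination h4 - a ^ s * h3 + (p * a ^ s + p * a ^ s * a ^ s) * h2
    have h6 : p = 0 := by
      rcases mul_eq_zero.mp h5 with h | h
      · exact h
      · exact absurd h hds
    rw [h6] at h3
    exact ⟨h6, by simpa using h3⟩
  have hnz : ¬ (f = 0 ∧ G = 0 ∧ H = 0) := by
    rintro ⟨h3, h4, h5⟩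
    apply hnz2
    obtain ⟨p1, p2⟩ := hdet (a2 * (1 + a ^ s) + d2) (b2 * (1 + a ^ s) + e2)
      (by linear_combination hE) (by rw [hf] at h3; linear_combination h3)
    obtain ⟨p3, p4⟩ := hdet (a2 * δ ^ s + d2 * a ^ s) (b2 * δ ^ s + e2 * a ^ s)
      (by rw [hG] at h4; linear_combination h4) (by rw [hH] at h5; linear_combination h5)
    obtain ⟨p5, p6⟩ := hdet' a2 d2 p1 p3
    obtain ⟨p7, p8⟩ := hdet' b2 e2 p2 p4
    exact ⟨p5, p7, p6, p8⟩
  -- three points of the block
  have hcard3 : 2 < ((blk F (F a + m * a) m).erase a).card := by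
    rw [Finset.card_erase_of_mem ha, hcard]
    omega
  obtain ⟨x, y, z, hx, hy, hz, hxy, hxz, hyz⟩ := Finset.two_lt_card_iff.mp hcard3
  rw [Finset.mem_erase] at hx hy hz
  have hfx := hT x hx.2 hx.1
  have hfy := hT y hy.2 hy.1
  have hfz := hT z hz.2 hz.1
  have hf0 : f ≠ 0 := by
    intro h
    rw [h, zero_mul, zero_add] at hfx hfy
    obtain ⟨p1, p2⟩ := lin_zero hxy hfx hfy
    exact hnz ⟨h, p1, p2⟩
  have hT2 : ∀ u ∈ blk F (F a + m * a) m, u ≠ a → u ^ s = G / f * u + H / f := by
    intro u hu hua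
    have h := hT u hu hua
    field_simp
    linear_combination h - (G * u + H) * h2
  have hG0 : G / f ≠ 0 := by
    intro h
    have e1 := hT2 x hx.2 hx.1
    have e2 := hT2 y hy.2 hy.1
    rw [h] at e1 e2
    exact hxy (pow_s_inj S.hs (by rw [e1, e2]; ring))
  have hq : ∀ u ∈ blk F (F a + m * a) m, u ≠ a →
      (a1 * (G / f)) * u ^ 2 + (a1 * (H / f) + b1 * (G / f) + d1) * u +
        (b1 * (H / f) + e1) = 0 := by
    intro u hu hua
    have h := hR1 u hu
    rw [pow_succ, hT2 u hu hua] at h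
    linear_combination h
  obtain ⟨q1, q2, q3⟩ := quad_zero hxy hxz hyz (hq x hx.2 hx.1) (hq y hy.2 hy.1)
    (hq z hz.2 hz.1)
  have ha1 : a1 = 0 := by
    rcases mul_eq_zero.mp q1 with h | h
    · exact h
    · exact absurd h hG0
  have hd1 : d1 = b1 * (G / f) := by
    rw [ha1] at q2
    linear_combination q2 - b1 * (G / f) * h2
  have he1 : e1 = b1 * (H / f) := by linear_combination q3 - b1 * (H / f) * h2
  have hb10 : b1 ≠ 0 := by
    intro h
    apply hnz1
    refine ⟨ha1, h, ?_, ?_⟩
    · rw [hd1, h, zero_mul]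
    · rw [he1, h, zero_mul]
  have hroot : ∀ u ∈ blk F (F a + m * a) m, u ^ s + G / f * u + H / f = 0 := by
    intro u hu
    have h := hR1 u hu
    rw [ha1, hd1, he1] at h
    have h3 : b1 * (u ^ s + G / f * u + H / f) = 0 := by linear_combination h
    rcases mul_eq_zero.mp h3 with h | h
    · exact absurd h hb10
    · exact h
  have hcs : c ^ s + G / f * c = 0 := by
    have e1 := hroot a ha
    have e2 := hroot (a + c) hac
    rw [hpow] at e2
    linear_combination e2 - e1
  intro w hw
  have hwroot : (a + w * c) ^ s + G / f * (a + w * c) + H / f = 0 := by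
    rw [hpow, mul_pow, hw]
    linear_combination hroot a ha + w * hcs
  have hwmem : a + w * c ∈ blk F (F a + m * a) m := by
    by_contra hcon
    set P : K[X] := X ^ s + C (G / f) * X + C (H / f) with hP
    have hdeg : P.natDegree ≤ s := by
      rw [hP]
      refine (natDegree_add_le _ _).trans (max_le ((natDegree_add_le _ _).trans (max_le ?_ ?_)) ?_)
      · exact natDegree_X_pow_le s
      · refine (natDegree_C_mul_le _ _).trans ?_
        rw [natDegree_X]
        omega
      · rw [natDegree_C]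
        omega
    have hP0 : P ≠ 0 := by
      intro h
      have h3 := congrArg (fun p : K[X] => p.coeff s) h
      simp only [hP, coeff_add, coeff_X_pow, if_true, coeff_C_mul, coeff_X, coeff_C,
        coeff_zero] at h3
      rw [if_neg (by omega), if_neg (by omega)] at h3
      simp at h3
    have hle := Polynomial.card_le_degree_of_subset_roots (p := P)
      (Z := insert (a + w * c) (blk F (F a + m * a) m)) (by
        intro u hu
        rw [Polynomial.mem_roots hP0, IsRoot.def]
        simp only [hP, eval_add, eval_pow, eval_X, eval_mul, eval_C]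
        have hu' : u = a + w * c ∨ u ∈ blk F (F a + m * a) m := by
          simpa using hu
        rcases hu' with rfl | hu'
        · exact hwroot
        · exact hroot u hu')
    rw [Finset.card_insert_of_notMem hcon, hcard] at hle
    omega
  rw [mem_blk] at hwmem
  linear_combination hwmem + w * hmc - (w * c * m) * h2

/-! ### few bad directions -/

lemma fiber_le (S : Cfg K k g s Q t th F) (a m : K) :
    (univ.filter fun c : K => c ≠ 0 ∧ (F (a + c) + F a) / c = m).card ≤ s - 1 := by
  have hs4 := S.s_ge'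
  have h2 := two_eq_zero' (K := K)
  have ha : a ∈ blk F (F a + m * a) m := by rw [mem_blk]
  have h1 : (univ.filter fun c : K => c ≠ 0 ∧ (F (a + c) + F a) / c = m).card ≤
      ((blk F (F a + m * a) m).erase a).card := by
    apply Finset.card_le_card_of_injOn (fun c => a + c)
    · intro c hc
      simp only [Finset.coe_filter, Finset.mem_univ, true_and, Set.mem_ofPred_eq] at hc
      obtain ⟨hc0, hcm⟩ := hc
      simp only [Finset.coe_erase, Set.mem_sdiff, Finset.mem_coe, Set.mem_singleton_iff]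
      refine ⟨?_, ?_⟩
      · rw [mem_blk]
        rw [div_eq_iff hc0] at hcm
        linear_combination hcm + (m * c - F a) * h2
      · intro h
        apply hc0
        simpa using h
    · intro c _ d _ hcd
      exact add_left_cancel hcd
  rw [Finset.card_erase_of_mem ha] at h1
  rcases S.line (F a + m * a) m with h | h | h
  · rw [h] at h1; omega
  · rw [h] at h1; omega
  · rw [h] at h1; exact h1

/-- few bad directions at each point -/
theorem Cfg.few_bad_of (S : Cfg K k g s Q t th F)
    (hPA : ∃ Bad : Finset (K × K), (∀ u : K, (s - 2) *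
        ((SS F s u).filter fun m => (F u + m * u, m) ∈ Bad).card ≤ t) ∧
      ∀ c m : K, (blk F c m).card = s → (c, m) ∉ Bad →
        ∃ a b d e : K, ¬ (a = 0 ∧ b = 0 ∧ d = 0 ∧ e = 0) ∧
          ∀ x ∈ blk F c m, a * x ^ (s + 1) + b * x ^ s + d * x + e = 0)
    {δ : K} (hδ : ∀ x : K, x ^ 2 + x + δ ≠ 0)
    (hinj : Function.Injective F) (h1 : ∀ x, F (1 + x) = 1 + F x)
    (hrot : ∀ τ x, x ≠ τ → F (rho δ τ x) = rho δ (F τ) (F x)) (a : K) :
    (univ.filter fun c : K => ¬ ∀ x : K, x ^ s = x →
      F (a + x * c) = F a + x * (F (a + c) + F a)).card ≤ 3 * t := by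
  obtain ⟨Bad, hB1, hB2⟩ := hPA
  have hs4 := S.s_ge'
  have h2 := two_eq_zero' (K := K)
  have hd : ∀ x : K, δ + x + x ^ 2 ≠ 0 := by
    intro x h
    apply hδ x
    linear_combination h
  set κ := (δ + F a + F a ^ 2) / (δ + a + a ^ 2) with hκ
  have hκ0 : κ ≠ 0 := div_ne_zero (hd _) (hd _)
  set S1 := univ.filter fun c : K => c ≠ 0 ∧
    (F a + (F (a + c) + F a) / c * a, (F (a + c) + F a) / c) ∈ Bad with hS1
  set S2 := univ.filter fun c : K => c ≠ 0 ∧
    (F (1 + a) + κ / ((F (a + c) + F a) / c) * (1 + a), κ / ((F (a + c) + F a) / c)) ∈ Bad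
    with hS2
  have hsub : (univ.filter fun c : K => ¬ ∀ x : K, x ^ s = x →
      F (a + x * c) = F a + x * (F (a + c) + F a)) ⊆ S1 ∪ S2 := by
    intro c hc
    rw [Finset.mem_filter] at hc
    have hc0 : c ≠ 0 := by
      intro h
      apply hc.2
      intro x _
      rw [h, mul_zero, add_zero, addself, mul_zero, add_zero]
    rw [Finset.mem_union]
    by_contra hcon
    rw [not_or] at hcon
    apply hc.2
    apply S.two_flags hδ hinj h1 hrot hB2 hc0
    · intro h
      apply hcon.1
      rw [hS1, Finset.mem_filter]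
      exact ⟨Finset.mem_univ _, hc0, h⟩
    · intro m' hm' h
      apply hcon.2
      rw [hS2, Finset.mem_filter]
      rw [hm'] at h
      exact ⟨Finset.mem_univ _, hc0, h⟩
  have hc1 : S1.card ≤ (s - 1) *
      ((SS F s a).filter fun m => (F a + m * a, m) ∈ Bad).card := by
    apply Finset.card_le_mul_card_image_of_maps_to (f := fun c => (F (a + c) + F a) / c)
    · intro c hc
      rw [hS1, Finset.mem_filter] at hc
      rw [Finset.mem_filter, mem_SS]
      obtain ⟨ha, hac⟩ := mem_base (F := F) (a := a) hc.2.1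
      refine ⟨S.full ha hac ?_, hc.2.2⟩
      intro h
      apply hc.2.1
      simpa using h.symm
    · intro m _
      refine (Finset.card_le_card ?_).trans (fiber_le S a m)
      intro c hc
      rw [Finset.mem_filter, hS1, Finset.mem_filter] at hc
      rw [Finset.mem_filter]
      exact ⟨Finset.mem_univ _, hc.1.2.1, hc.2⟩
  have hc2 : S2.card ≤ (s - 1) *
      ((SS F s (1 + a)).filter fun m => (F (1 + a) + m * (1 + a), m) ∈ Bad).card := by
    apply Finset.card_le_mul_card_image_of_maps_to (f := fun c => κ / ((F (a + c) + F a) / c))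
    · intro c hc
      rw [hS2, Finset.mem_filter] at hc
      rw [Finset.mem_filter, mem_SS]
      obtain ⟨ha, hac⟩ := mem_base (F := F) (a := a) hc.2.1
      have hm := slope_ne (F := F) (a := a) hinj hc.2.1
      have hne : a + c ≠ a := by
        intro h
        apply hc.2.1
        simpa using h
      refine ⟨S.full (x := 1 + a) (y := rho δ a (a + c)) (by rw [mem_blk]) ?_
        (rot_ne hδ hne).symm, hc.2.2⟩
      apply rot_mem hδ hinj h1 hrot hne hm
      have h3 : a + c + a = c := by linear_combination a * h2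
      rw [h3, div_mul_cancel₀ _ hc.2.1]
    · intro m _
      refine (Finset.card_le_card ?_).trans (fiber_le S a (κ / m))
      intro c hc
      rw [Finset.mem_filter, hS2, Finset.mem_filter] at hc
      rw [Finset.mem_filter]
      refine ⟨Finset.mem_univ _, hc.1.2.1, ?_⟩
      have hm := slope_ne (F := F) (a := a) hinj hc.1.2.1
      rw [← hc.2, div_div_cancel₀ hκ0]
  have hb1 := hB1 a
  have hb2 := hB1 (1 + a)
  have hfin := (Finset.card_le_card hsub).trans (Finset.card_union_le S1 S2)
  set β1 := ((SS F s a).filter fun m => (F a + m * a, m) ∈ Bad).card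
  set β2 := ((SS F s (1 + a)).filter fun m => (F (1 + a) + m * (1 + a), m) ∈ Bad).card
  obtain ⟨r, rfl⟩ : ∃ r, s = r + 4 := ⟨s - 4, by omega⟩
  have e1 : r + 4 - 1 = r + 3 := by omega
  have e2 : r + 4 - 2 = r + 2 := by omega
  rw [e1] at hc1 hc2
  rw [e2] at hb1 hb2
  nlinarith [Nat.zero_le (r * β1), Nat.zero_le (r * β2)]

/-! ### the union bound -/

lemma Cfg.exists_root (S : Cfg K k g s Q t th F) : ∃ w : K, w ^ s = w ∧ w ≠ 0 ∧ w ≠ 1 := by
  have hs4 := S.s_ge'
  obtain ⟨ζ, hζ⟩ := IsCyclic.exists_ofOrder_eq_natCard (α := Kˣ)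
  have hcard : Nat.card Kˣ = 2 ^ k - 1 := by
    rw [Nat.card_eq_fintype_card, Fintype.card_units, S.card]
  have hsth := S.s_th'
  have hdvd : s - 1 ∣ orderOf ζ := by
    rw [hζ, hcard]
    exact ⟨th, by omega⟩
  have ho : orderOf ζ ≠ 0 := by
    rw [hζ, hcard]
    have : 0 < th := by rw [S.hth]; omega
    have : 0 < (s - 1) * th := Nat.mul_pos (by omega) this
    omega
  have hord := orderOf_pow_orderOf_div ho hdvd
  set w := ζ ^ (orderOf ζ / (s - 1)) with hw
  have hw1 : w ^ (s - 1) = 1 := by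
    rw [← hord]
    exact pow_orderOf_eq_one w
  refine ⟨(w : K), ?_, Units.ne_zero w, ?_⟩
  · have : ((w : K)) ^ (s - 1) = 1 := by
      rw [← Units.val_pow_eq_pow_val, hw1, Units.val_one]
    obtain ⟨r, hr⟩ : ∃ r, s = r + 1 := ⟨s - 1, by omega⟩
    rw [hr] at this ⊢
    simp only [Nat.add_sub_cancel] at this
    rw [pow_succ, this, one_mul]
  · intro h
    have h1 : w = 1 := by
      ext
      exact h
    rw [h1, orderOf_one] at hord
    omega

/-- union bound -/
theorem Cfg.affine (S : Cfg K k g s Q t th F)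
    (hfew : ∀ a, (univ.filter fun c : K => ¬ ∀ x : K, x ^ s = x →
      F (a + x * c) = F a + x * (F (a + c) + F a)).card ≤ 3 * t) :
    ∀ a b : K, F (a + b) + F 0 = (F a + F 0) + (F b + F 0) := by
  have h2 := two_eq_zero' (K := K)
  have hs4 := S.s_ge'
  obtain ⟨w, hw, hw0, hw1⟩ := S.exists_root
  have hpow : ∀ x y : K, (x + y) ^ s = x ^ s + y ^ s := pow_s_add S.hs
  have h1w : 1 + w ≠ 0 := by
    intro h
    exact hw1 (eq_of_add_eq_zero' (by rw [add_comm]; exact h))
  -- the key identity, with `lam = w`, `mu = w ^ 2`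
  have hmu1 : 1 + w ^ 2 ≠ 0 := by
    have : (1 + w) ^ 2 ≠ 0 := pow_ne_zero _ h1w
    intro h
    apply this
    linear_combination h + w * h2
  have hmuw : w ^ 2 + w ≠ 0 := by
    have : w * (1 + w) ≠ 0 := mul_ne_zero hw0 h1w
    intro h
    apply this
    linear_combination h
  set al := (w ^ 2 + w) / (1 + w ^ 2) with hal
  set ga := (w ^ 2 + w) / w ^ 2 with hga
  have hal0 : al ≠ 0 := div_ne_zero hmuw hmu1
  have hws : (w ^ 2) ^ s = w ^ 2 := by rw [← pow_mul, mul_comm, pow_mul, hw]
  have hals : al ^ s = al := by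
    rw [hal, div_pow, hpow, hpow, hws, hw, one_pow]
  have hgas : ga ^ s = ga := by
    rw [hga, div_pow, hpow, hws, hw]
  have key : ∀ a b : K, F ((1 + w) * a + w * b) = (1 + w) * F a + w * F b := by
    intro a b
    set P := (1 + w) * a + w * b with hP
    -- bad sets
    set Z1 := univ.filter fun z : K => ¬ ∀ x : K, x ^ s = x →
      F (a + x * (a + z)) = F a + x * (F (a + (a + z)) + F a) with hZ1
    set Z2 := univ.filter fun z : K => ¬ ∀ x : K, x ^ s = x →
      F (b + x * (b + z)) = F b + x * (F (b + (b + z)) + F b) with hZ2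
    set Z3 := univ.filter fun z : K => ¬ ∀ x : K, x ^ s = x →
      F (P + x * (P + (1 + al) * a + al * z)) =
        F P + x * (F (P + (P + (1 + al) * a + al * z)) + F P) with hZ3
    have hc1 : Z1.card ≤ 3 * t := by
      refine le_trans ?_ (hfew a)
      apply Finset.card_le_card_of_injOn (fun z => a + z)
      · intro z hz
        simpa [hZ1] using hz
      · intro z _ z' _ h
        exact add_left_cancel h
    have hc2 : Z2.card ≤ 3 * t := by
      refine le_trans ?_ (hfew b)
      apply Finset.card_le_card_of_injOn (fun z => b + z)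
      · intro z hz
        simpa [hZ2] using hz
      · intro z _ z' _ h
        exact add_left_cancel h
    have hc3 : Z3.card ≤ 3 * t := by
      refine le_trans ?_ (hfew P)
      apply Finset.card_le_card_of_injOn (fun z => P + (1 + al) * a + al * z)
      · intro z hz
        simpa [hZ3] using hz
      · intro z _ z' _ h
        exact mul_left_cancel₀ hal0 (add_left_cancel h)
    have hlt : (Z1 ∪ Z2 ∪ Z3).card < Fintype.card K := by
      have h3 := (Finset.card_union_le (Z1 ∪ Z2) Z3).trans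
        (Nat.add_le_add_right (Finset.card_union_le Z1 Z2) _)
      have h4 : Fintype.card K = s * Q := by rw [S.card, S.sQ']
      have h5 := S.hQt
      have h6 : 3 * t + 1 ≤ Q := by
        rw [h5]
        have : 3 * t ≤ (s - 1) * t := Nat.mul_le_mul_right _ (by omega)
        omega
      have h7 : 4 * (3 * t + 1) ≤ s * Q := Nat.mul_le_mul hs4 h6
      omega
    obtain ⟨z, hz⟩ : ∃ z, z ∉ Z1 ∪ Z2 ∪ Z3 := by
      by_contra hcon
      push Not at hcon
      have : Z1 ∪ Z2 ∪ Z3 = univ := Finset.eq_univ_iff_forall.mpr hcon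
      rw [this, Finset.card_univ] at hlt
      omega
    rw [Finset.mem_union, Finset.mem_union, not_or, not_or] at hz
    obtain ⟨⟨hz1, hz2⟩, hz3⟩ := hz
    rw [hZ1, Finset.mem_filter, not_and, not_not] at hz1
    rw [hZ2, Finset.mem_filter, not_and, not_not] at hz2
    rw [hZ3, Finset.mem_filter, not_and, not_not] at hz3
    have g1 := hz1 (Finset.mem_univ _) al hals
    have g2 := hz2 (Finset.mem_univ _) ga hgas
    have g3 := hz3 (Finset.mem_univ _) ((1 + w ^ 2) / w ^ 2)
      (by rw [div_pow, hpow, hws, one_pow])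
    have ea : a + (a + z) = z := by linear_combination a * h2
    have eb : b + (b + z) = z := by linear_combination b * h2
    have eP : P + (P + (1 + al) * a + al * z) = a + al * (a + z) := by
      linear_combination P * h2
    rw [ea] at g1
    rw [eb] at g2
    rw [eP] at g3
    have hw2 : w ^ 2 ≠ 0 := pow_ne_zero _ hw0
    have halm : al * (1 + w ^ 2) = w ^ 2 + w := div_mul_cancel₀ _ hmu1
    have hgam : ga * w ^ 2 = w ^ 2 + w := div_mul_cancel₀ _ hw2
    have eY : P + (1 + w ^ 2) / w ^ 2 * (P + (1 + al) * a + al * z) = b + ga * (b + z) := by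
      have : w ^ 2 * (P + (1 + w ^ 2) / w ^ 2 * (P + (1 + al) * a + al * z)) =
          w ^ 2 * (b + ga * (b + z)) := by
        have e3 : w ^ 2 * ((1 + w ^ 2) / w ^ 2) = 1 + w ^ 2 := mul_div_cancel₀ _ hw2
        have e4 : w ^ 2 * (P + (1 + w ^ 2) / w ^ 2 * (P + (1 + al) * a + al * z)) =
          w ^ 2 * P + (w ^ 2 * ((1 + w ^ 2) / w ^ 2)) * (P + (1 + al) * a + al * z) := by ring
        rw [e4, e3, hP]
        linear_combination (a + z) * halm - (b + z) * hgam + (((1 + w) * a + w * b) * w ^ 2 +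
          a + a * w ^ 2 + a * w) * h2 - b * w ^ 2 * h2
      exact mul_left_cancel₀ hw2 this
    rw [eY, g2, g1] at g3
    have g4 : w ^ 2 * (F b + ga * (F z + F b)) =
        w ^ 2 * (F P + (1 + w ^ 2) / w ^ 2 * (F a + al * (F z + F a) + F P)) := by rw [g3]
    have e3 : w ^ 2 * ((1 + w ^ 2) / w ^ 2) = 1 + w ^ 2 := mul_div_cancel₀ _ hw2
    have e4 : w ^ 2 * (F P + (1 + w ^ 2) / w ^ 2 * (F a + al * (F z + F a) + F P)) =
      w ^ 2 * F P + (w ^ 2 * ((1 + w ^ 2) / w ^ 2)) * (F a + al * (F z + F a) + F P) := by ring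
    rw [e4, e3] at g4
    linear_combination (-1) * g4 - (F z + F a) * halm + (F z + F b) * hgam +
      (-F P * w ^ 2 - F a * w ^ 2 - F a - F a * w + F b * w ^ 2) * h2
  -- homogeneity and additivity
  have kA : ∀ a, F ((1 + w) * a) + F 0 = (1 + w) * (F a + F 0) := by
    intro a
    have := key a 0
    rw [mul_zero, add_zero] at this
    rw [this]
    linear_combination (- w * F 0) * h2 + (w * F 0) * h2
  have kB : ∀ b, F (w * b) + F 0 = w * (F b + F 0) := by
    intro b
    have := key 0 b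
    rw [mul_zero, zero_add] at this
    rw [this]
    linear_combination (F 0) * h2
  intro a b
  have h3 := key (a / (1 + w)) (b / w)
  have e1 : (1 + w) * (a / (1 + w)) = a := mul_div_cancel₀ _ h1w
  have e2 : w * (b / w) = b := mul_div_cancel₀ _ hw0
  have h4 := kA (a / (1 + w))
  have h5 := kB (b / w)
  rw [e1, e2] at h3
  rw [e1] at h4
  rw [e2] at h5
  rw [h3, h4, h5]
  linear_combination (-(w * F 0)) * h2

/-- the sum of the slopes at a point is constant -/
theorem Cfg.slope_const_of (S : Cfg K k g s Q t th F)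
    (hPA : ∃ Bad : Finset (K × K), (∀ u : K, (s - 2) *
        ((SS F s u).filter fun m => (F u + m * u, m) ∈ Bad).card ≤ t) ∧
      ∀ c m : K, (blk F c m).card = s → (c, m) ∉ Bad →
        ∃ a b d e : K, ¬ (a = 0 ∧ b = 0 ∧ d = 0 ∧ e = 0) ∧
          ∀ x ∈ blk F c m, a * x ^ (s + 1) + b * x ^ s + d * x + e = 0)
    {δ : K} (hδ : ∀ x : K, x ^ 2 + x + δ ≠ 0)
    (hinj : Function.Injective F) (h1 : ∀ x, F (1 + x) = 1 + F x)
    (hrot : ∀ τ x, x ≠ τ → F (rho δ τ x) = rho δ (F τ) (F x)) :
    ∃ C0 : K, ∀ u : K, ∑ v ∈ univ.erase u, (F u + F v) * (u + v)⁻¹ = C0 := by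
  have h2 := two_eq_zero' (K := K)
  have haff := S.affine (S.few_bad_of hPA hδ hinj h1 hrot)
  refine ⟨∑ c ∈ univ.erase (0 : K), (F c + F 0) * c⁻¹, ?_⟩
  intro u
  apply Finset.sum_nbij' (fun v => u + v) (fun c => u + c)
  · intro v hv
    rw [Finset.mem_erase] at hv ⊢
    exact ⟨add_ne_zero' hv.1.symm, Finset.mem_univ _⟩
  · intro c hc
    rw [Finset.mem_erase] at hc ⊢
    refine ⟨?_, Finset.mem_univ _⟩
    intro h
    apply hc.1
    simpa using h
  · intro v _
    linear_combination u * h2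
  · intro c _
    linear_combination u * h2
  · intro v _
    congr 1
    rw [haff u v]
    linear_combination (-F 0) * h2

end partB

end Pool.Agent.Helper1.Niho4
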