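import Pool.Agent.Helper1.Niho4.Count
import Pool.Agent.Helper1.Niho4.Exist
import Pool.Agent.Helper1.Niho4.GTrick
import Pool.Agent.Helper1.Niho4.PartB

set_option autoImplicit false
set_option linter.unusedSectionVars false

/-!
# The sum of the slopes at a point is constant
-/

namespace Pool.Agent.Helper1.Niho4

open Polynomial Finset Classical

variable {K : Type} [Field K] [Fintype K] [CharP K 2]
variable {k g s Q t th : ℕ} {F : K → K}

/-- the sum of the slopes at a point is constant -/
theorem Cfg.slope_const (S : Cfg K k g s Q t th F) {δ : K} (hδ : ∀ x : K, x ^ 2 + x + δ ≠ 0)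
    (hinj : Function.Injective F) (h1 : ∀ x, F (1 + x) = 1 + F x)
    (hrot : ∀ τ x, x ≠ τ → F (rho δ τ x) = rho δ (F τ) (F x)) :
    ∃ C0 : K, ∀ u : K, ∑ v ∈ univ.erase u, (F u + F v) * (u + v)⁻¹ = C0 :=
  S.slope_const_of (S.partA S.card_SS (S.exist_min S.card_SS S.card_LL)) hδ hinj h1 hrot

end Pool.Agent.Helper1.Niho4
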