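import Pool.Agent.Helper36.Niho.Exponent
import Pool.Agent.Helper1.Niho4.Main

set_option autoImplicit false
set_option linter.unusedSectionVars false
set_option linter.style.haveILetI false

/-!
# From the group of norm-one elements to a function on the field of `q` elements
-/

namespace Pool.Agent.Helper1.Niho4

open Finset Classical Pool.Agent.Helper36.Niho

/-- the subfield of `q` elements -/
def KF {F : Type} [Field F] [Fintype F] {k q : ℕ} (S : Setup F k q) : Subfield F where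
  carrier := {x | x ^ q = x}
  mul_mem' := by
    intro a b ha hb
    simp only [Set.mem_ofPred_eq] at ha hb ⊢
    rw [mul_pow, ha, hb]
  one_mem' := by simp
  add_mem' := by
    intro a b ha hb
    simp only [Set.mem_ofPred_eq] at ha hb ⊢
    rw [S.conj_add, ha, hb]
  zero_mem' := by
    simp only [Set.mem_ofPred_eq]
    exact zero_pow S.q_pos.ne'
  neg_mem' := by
    intro a ha
    simp only [Set.mem_ofPred_eq] at ha ⊢
    rw [S.neg_eq, ha]
  inv_mem' := by
    intro a ha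
    simp only [Set.mem_ofPred_eq] at ha ⊢
    rw [inv_pow, ha]

variable {F : Type} [Field F] [Fintype F] {k q : ℕ}

lemma mem_KF {S : Setup F k q} {x : F} : x ∈ KF S ↔ x ^ q = x := Iff.rfl

lemma add_lam_ne {S : Setup F k q} {lam : F} (hlam : lam ^ q = lam + 1) (x : KF S) :
    (x : F) + lam ≠ 0 := by
  intro h
  have h1 : (x : F) = lam := S.eq_of_add_eq_zero h
  have h2 : (x : F) ^ q = x := x.2
  rw [h1, hlam] at h2
  have h3 : (1 : F) = 0 := by linear_combination h2
  exact one_ne_zero h3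

/-- the element of the norm-one group with a given coordinate -/
lemma norm_ug {S : Setup F k q} {lam : F} (hlam : lam ^ q = lam + 1) (x : KF S) :
    (1 + ((x : F) + lam)⁻¹) ^ (q + 1) = 1 := by
  have h1 := add_lam_ne hlam x
  have h2 : (x : F) + lam + 1 ≠ 0 := by
    intro h
    have h3 : (x : F) + lam = 1 := S.eq_of_add_eq_zero h
    have h4 : ((x : F) + lam) ^ q = 1 := by rw [h3, one_pow]
    have h5 : (x : F) ^ q = x := x.2
    rw [S.conj_add, hlam, h5] at h4
    have h6 : (1 : F) = 0 := by linear_combination h4 - h3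
    exact one_ne_zero h6
  have h5 : (x : F) ^ q = x := x.2
  rw [pow_succ, S.conj_add, one_pow, inv_pow, S.conj_add, hlam, h5]
  have h3 : (x : F) + (lam + 1) ≠ 0 := by rwa [← add_assoc]
  field_simp
  linear_combination ((x : F) + lam + 1) * S.two_eq

noncomputable def ug {S : Setup F k q} {lam : F} (hlam : lam ^ q = lam + 1) (x : KF S) : UG F q :=
  mkU (1 + ((x : F) + lam)⁻¹) (norm_ug hlam x)

lemma ug_ne {S : Setup F k q} {lam : F} (hlam : lam ^ q = lam + 1) (x : KF S) :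
    ug hlam x ≠ 1 := by
  intro h
  have h1 : c (ug hlam x) = 1 := by rw [h]; rfl
  rw [ug, c_mkU] at h1
  have h2 : ((x : F) + lam)⁻¹ = 0 := by linear_combination h1
  exact add_lam_ne hlam x (inv_eq_zero.1 h2)

lemma tt_ug {S : Setup F k q} {lam : F} (hlam : lam ^ q = lam + 1) (x : KF S) :
    tt lam (ug hlam x) = x := by
  unfold tt
  rw [ug, c_mkU]
  have h1 : 1 + ((x : F) + lam)⁻¹ + 1 = ((x : F) + lam)⁻¹ := by
    linear_combination S.two_eq
  rw [h1, inv_inv]
  linear_combination lam * S.two_eq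

lemma ug_tt {S : Setup F k q} {lam : F} (hlam : lam ^ q = lam + 1) {u : UG F q} (hu : u ≠ 1) :
    ug hlam (⟨tt lam u, S.tt_mem hlam hu⟩ : KF S) = u := by
  apply S.tt_inj (lam := lam)
  rw [tt_ug]

lemma pow_ne_one {S : Setup F k q} {θ : ℕ} (hθc : Nat.Coprime (q + 1) θ) {u : UG F q}
    (hu : u ≠ 1) : u ^ θ ≠ 1 := by
  intro h
  apply hu
  apply S.pow_inj hθc
  rw [h, one_pow]

/-- the function on the subfield -/
noncomputable def fK {S : Setup F k q} {lam : F} (hlam : lam ^ q = lam + 1) {θ : ℕ}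
    (hθc : Nat.Coprime (q + 1) θ) (x : KF S) : KF S :=
  ⟨tt lam (ug hlam x ^ θ), S.tt_mem hlam (pow_ne_one (S := S) hθc (ug_ne hlam x))⟩

lemma fK_coe {S : Setup F k q} {lam : F} (hlam : lam ^ q = lam + 1) {θ : ℕ}
    (hθc : Nat.Coprime (q + 1) θ) (x : KF S) :
    (fK hlam hθc x : F) = tt lam (ug hlam x ^ θ) := rfl

lemma fK_tt {S : Setup F k q} {lam : F} (hlam : lam ^ q = lam + 1) {θ : ℕ}
    (hθc : Nat.Coprime (q + 1) θ) {u : UG F q} (hu : u ≠ 1) :
    (fK hlam hθc (⟨tt lam u, S.tt_mem hlam hu⟩ : KF S) : F) = tt lam (u ^ θ) := by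
  rw [fK_coe, ug_tt hlam hu]

lemma ug_inj {S : Setup F k q} {lam : F} (hlam : lam ^ q = lam + 1) {x y : KF S}
    (h : ug hlam x = ug hlam y) : x = y := by
  apply Subtype.ext
  rw [← tt_ug hlam x, h, tt_ug]

lemma fK_inj {S : Setup F k q} {lam : F} (hlam : lam ^ q = lam + 1) {θ : ℕ}
    (hθc : Nat.Coprime (q + 1) θ) : Function.Injective (fK (S := S) hlam hθc) := by
  intro x y h
  have h1 := congrArg (fun z : KF S => (z : F)) h
  simp only [fK_coe] at h1
  exact ug_inj hlam (S.pow_inj hθc (S.tt_inj h1))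

/-- a finite set of elements of the norm-one group as a set of elements of the subfield -/
lemma card_transfer {S : Setup F k q} {lam : F} (hlam : lam ^ q = lam + 1) (P : UG F q → Prop)
    (R : KF S → Prop) (hPR : ∀ x : KF S, R x ↔ P (ug hlam x)) :
    (univ.filter R).card = (((univ : Finset (UG F q)).erase 1).filter P).card := by
  apply Finset.card_bij (fun x _ => ug hlam x)
  · intro x hx
    rw [Finset.mem_filter] at hx
    rw [Finset.mem_filter, Finset.mem_erase]
    exact ⟨⟨ug_ne hlam x, Finset.mem_univ _⟩, (hPR x).1 hx.2⟩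
  · intro x _ y _ h
    exact ug_inj hlam h
  · intro u hu
    rw [Finset.mem_filter, Finset.mem_erase] at hu
    refine ⟨⟨tt lam u, S.tt_mem hlam hu.1.1⟩, ?_, ug_tt hlam hu.1.1⟩
    rw [Finset.mem_filter]
    refine ⟨Finset.mem_univ _, ?_⟩
    rw [hPR, ug_tt hlam hu.1.1]
    exact hu.2

lemma card_KF (S : Setup F k q) : Fintype.card (KF S) = 2 ^ k := by
  obtain ⟨lam, hlam⟩ := S.exists_lam (F := F)
  have h := card_transfer (S := S) hlam (fun _ => True) (fun _ => True) (fun _ => Iff.rfl)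
  simp only [Finset.filter_true] at h
  rw [Finset.card_univ, Finset.card_erase_of_mem (Finset.mem_univ _), Finset.card_univ,
    S.card_UG'] at h
  rw [h, ← S.hq]
  rfl

lemma charP_KF (S : Setup F k q) : CharP (KF S) 2 := by
  have h2 := S.char
  exact (KF S).subtype.charP_iff (KF S).subtype.injective 2 |>.2 h2

/-- the configuration -/
lemma cfg_fK (S : Setup F k q) {lam : F} (hlam : lam ^ q = lam + 1) {e θ g : ℕ}
    (he : 1 ≤ e) (hce : Nat.Coprime (q + 1) e) (h1 : Nat.Coprime (q + 1) (e - 1))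
    (hθ : (e - 1) * θ ≡ e + 1 [MOD q + 1]) (hθc : Nat.Coprime (q + 1) θ)
    (hval : ∀ a : F, NN q e a = 0 ∨ NN q e a = 1 ∨ NN q e a = 2 ∨ NN q e a = 2 ^ g + 1)
    (hg : 2 ≤ g) (hgk : 2 * g ∣ k) :
    ∃ t : ℕ, Cfg (KF S) k g (2 ^ g) (2 ^ (k - g)) t (2 ^ g * t + 1) (fK (S := S) hlam hθc) := by
  have hk := S.hk
  have hle : 2 * g ≤ k := Nat.le_of_dvd (by omega) hgk
  have hdvd : (2 ^ g - 1) ∣ 2 ^ (k - g) - 1 := by
    apply Nat.pow_sub_one_dvd_pow_sub_one
    apply Nat.dvd_sub (dvd_trans (Dvd.intro_left 2 rfl) hgk) (dvd_refl g)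
  obtain ⟨t, ht⟩ := hdvd
  refine ⟨t, hg, hle, rfl, rfl, ?_, rfl, card_KF S, ?_⟩
  · have : 0 < 2 ^ (k - g) := by positivity
    omega
  · intro c m
    have h3 := S.line_card (s := 2 ^ g) he hce h1 hθ hθc hval hlam (m := (m : F)) (c0 := (c : F)) m.2 c.2
    have h4 : (blk (fK (S := S) hlam hθc) c m).card =
        (((univ : Finset (UG F q)).erase 1).filter fun u =>
          tt lam (u ^ θ) + (m : F) * tt lam u = (c : F)).card := by
      unfold blk
      apply card_transfer (S := S) hlam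
      intro x
      rw [← Subtype.coe_inj]
      push_cast
      rw [fK_coe, tt_ug]
    rw [h4]
    exact h3

/-- the constant in the quadratic polynomial of the rotation -/
def dl {S : Setup F k q} {lam : F} (hlam : lam ^ q = lam + 1) : KF S :=
  ⟨lam + lam ^ 2, by
    rw [mem_KF, S.conj_add, ← pow_mul, mul_comm 2 q, pow_mul, hlam]
    linear_combination (1 + lam) * S.two_eq⟩

lemma dl_ne {S : Setup F k q} {lam : F} (hlam : lam ^ q = lam + 1) (x : KF S) :
    x ^ 2 + x + dl hlam ≠ 0 := by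
  intro h
  have h1 := congrArg (fun z : KF S => (z : F)) h
  simp only [dl] at h1
  push_cast at h1
  have h2 : ((x : F) + lam) * ((x : F) + lam + 1) = 0 := by
    linear_combination h1 + (x : F) * lam * S.two_eq
  rcases mul_eq_zero.1 h2 with h3 | h3
  · exact add_lam_ne hlam x h3
  · have h4 := add_lam_ne (S := S) hlam (x + 1)
    apply h4
    push_cast
    linear_combination h3

lemma tt_div {S : Setup F k q} (lam : F) {u v : UG F q} (hu : u ≠ 1) (hv : v ≠ 1) (huv : u ≠ v) :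
    ((1 + tt lam v) * tt lam u + (lam + lam ^ 2)) / (tt lam u + tt lam v) = tt lam (u * v⁻¹) := by
  have h1 := S.c_add_one_ne hu
  have h2 := S.c_add_one_ne hv
  have h3 : c u + c v ≠ 0 := S.cadd_ne huv
  have h4 := c_ne v
  have h5 : tt lam u + tt lam v = (c u + c v) * ((c u + 1)⁻¹ * (c v + 1)⁻¹) := by
    unfold tt
    field_simp
    linear_combination (lam * (c u + 1) * (c v + 1) + 1) * S.two_eq
  have h6 : (c (u * v⁻¹) + 1)⁻¹ = c v * (c u + c v)⁻¹ := by
    rw [c_mul, c_inv]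
    field_simp
  rw [h5]
  unfold tt
  rw [h6]
  field_simp
  linear_combination ((c u + 1) * (c v + 1) * (lam ^ 2 + lam) + 1 + lam) * S.two_eq

lemma rho_coe {S : Setup F k q} {lam : F} (hlam : lam ^ q = lam + 1) (τ x : KF S) :
    ((rho (dl hlam) τ x : KF S) : F) =
      ((1 + (τ : F)) * (x : F) + (lam + lam ^ 2)) / ((x : F) + (τ : F)) := by
  unfold rho dl
  push_cast
  rfl

lemma fK_rho {S : Setup F k q} {lam : F} (hlam : lam ^ q = lam + 1) {θ : ℕ}
    (hθc : Nat.Coprime (q + 1) θ) (τ x : KF S) (h : x ≠ τ) :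
    fK hlam hθc (rho (dl hlam) τ x) = rho (dl hlam) (fK hlam hθc τ) (fK hlam hθc x) := by
  have hu := ug_ne hlam x
  have hv := ug_ne hlam τ
  have huv : ug hlam x ≠ ug hlam τ := fun h' => h (ug_inj hlam h')
  have huv' : ug hlam x * (ug hlam τ)⁻¹ ≠ 1 := by
    intro h'
    exact huv (mul_inv_eq_one.1 h')
  have h1 : ug hlam (rho (dl hlam) τ x) = ug hlam x * (ug hlam τ)⁻¹ := by
    apply S.tt_inj (lam := lam)
    rw [tt_ug, rho_coe, ← tt_div (S := S) lam hu hv huv, tt_ug, tt_ug]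
  apply Subtype.ext
  rw [fK_coe, h1, rho_coe, fK_coe, fK_coe,
    tt_div (S := S) lam (pow_ne_one (S := S) hθc hu) (pow_ne_one (S := S) hθc hv)
      (fun h' => huv (S.pow_inj hθc h')), mul_pow, inv_pow]

lemma fK_one_add {S : Setup F k q} {lam : F} (hlam : lam ^ q = lam + 1) {θ : ℕ}
    (hθc : Nat.Coprime (q + 1) θ) (x : KF S) :
    fK hlam hθc (1 + x) = 1 + fK hlam hθc x := by
  have hu := ug_ne hlam x
  have h1 : ug hlam (1 + x) = (ug hlam x)⁻¹ := by
    apply S.tt_inj (lam := lam)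
    rw [tt_ug, S.tt_inv hu, tt_ug]
    push_cast
    ring
  apply Subtype.ext
  push_cast
  rw [fK_coe, fK_coe, h1, inv_pow, S.tt_inv (pow_ne_one (S := S) hθc hu)]
  ring

/-- the sums of the slopes on the two sides -/
lemma slope_transfer {S : Setup F k q} {lam : F} (hlam : lam ^ q = lam + 1) {θ : ℕ}
    (hθc : Nat.Coprime (q + 1) θ) {C0 : KF S}
    (hC : ∀ u : KF S, ∑ v ∈ univ.erase u, (fK hlam hθc u + fK hlam hθc v) * (u + v)⁻¹ = C0)
    {u : UG F q} (hu : u ≠ 1) :
    ∑ v ∈ ((univ : Finset (UG F q)).erase 1).erase u,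
      (tt lam (u ^ θ) + tt lam (v ^ θ)) * (tt lam u + tt lam v)⁻¹ = (C0 : F) := by
  rw [← hC ⟨tt lam u, S.tt_mem hlam hu⟩]
  push_cast
  symm
  apply Finset.sum_bij (fun x _ => ug hlam x)
  · intro x hx
    rw [Finset.mem_erase] at hx
    rw [Finset.mem_erase, Finset.mem_erase]
    refine ⟨?_, ug_ne hlam x, Finset.mem_univ _⟩
    intro h
    apply hx.1
    apply Subtype.ext
    rw [← tt_ug hlam x, h]
  · intro x _ y _ h
    exact ug_inj hlam h
  · intro v hv
    rw [Finset.mem_erase, Finset.mem_erase] at hv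
    refine ⟨⟨tt lam v, S.tt_mem hlam hv.2.1⟩, ?_, ug_tt hlam hv.2.1⟩
    rw [Finset.mem_erase]
    refine ⟨?_, Finset.mem_univ _⟩
    intro h
    have := congrArg (fun z : KF S => (z : F)) h
    exact hv.1 (S.tt_inj this)
  · intro x _
    rw [fK_tt hlam hθc hu, fK_coe, tt_ug]

/-- **The exponent** for all `g`. -/
theorem exponent_all (S : Setup F k q) {e g : ℕ} (he : 1 ≤ e) (hce : Nat.Coprime (q + 1) e)
    (h1 : Nat.Coprime (q + 1) (e - 1)) (h2 : Nat.Coprime (q + 1) (e + 1)) (hq4 : 4 ≤ q)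
    (hval : ∀ a : F, NN q e a = 0 ∨ NN q e a = 1 ∨ NN q e a = 2 ∨ NN q e a = 2 ^ g + 1)
    (hg : 1 ≤ g) (hgk : 2 * g ∣ k) :
    ∃ ψ, 0 < ψ ∧ ψ < q + 1 ∧ ψ * (e + 1) ≡ e - 1 [MOD q + 1] ∧
      ∃ i, ψ = 2 ^ i ∨ q + 1 - ψ = 2 ^ i := by
  rcases Nat.lt_or_ge g 2 with hg2 | hg2
  · exact S.exponent he hce h1 h2 hq4 hval (Or.inl (by omega))
  obtain ⟨x, hx⟩ := S.exists_inv_mod h1
  obtain ⟨y, hy⟩ := S.exists_inv_mod h2
  obtain ⟨lam, hlam⟩ := S.exists_lam (F := F)
  set θ := x * (e + 1) with hθdef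
  set ψ := y * (e - 1) % (q + 1) with hψdef
  have hθ : (e - 1) * θ ≡ e + 1 [MOD q + 1] := by
    calc (e - 1) * θ = ((e - 1) * x) * (e + 1) := by rw [hθdef]; ring
      _ ≡ 1 * (e + 1) [MOD q + 1] := hx.mul_right _
      _ = e + 1 := one_mul _
  have hψe : ψ * (e + 1) ≡ e - 1 [MOD q + 1] := by
    calc ψ * (e + 1) ≡ (y * (e - 1)) * (e + 1) [MOD q + 1] := (Nat.mod_modEq _ _).mul_right _
      _ = ((e + 1) * y) * (e - 1) := by ring
      _ ≡ 1 * (e - 1) [MOD q + 1] := hy.mul_right _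
      _ = e - 1 := one_mul _
  have hψθ : ψ * θ ≡ 1 [MOD q + 1] := by
    calc ψ * θ = (ψ * (e + 1)) * x := by rw [hθdef]; ring
      _ ≡ (e - 1) * x [MOD q + 1] := hψe.mul_right _
      _ ≡ 1 [MOD q + 1] := hx
  have hcopm : Nat.Coprime (ψ * θ) (q + 1) := by
    rw [Nat.Coprime, Nat.ModEq.gcd_eq hψθ]
    simp
  have hθc : Nat.Coprime (q + 1) θ := (Nat.Coprime.coprime_mul_left hcopm).symm
  have hψc : Nat.Coprime ψ (q + 1) := Nat.Coprime.coprime_mul_right hcopm
  have hψ0 : 0 < ψ := by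
    rcases Nat.eq_zero_or_pos ψ with h | h
    · rw [h] at hψc
      have := (Nat.coprime_zero_left _).1 hψc
      omega
    · exact h
  have hψlt : ψ < q + 1 := Nat.mod_lt _ (by omega)
  refine ⟨ψ, hψ0, hψlt, hψe, ?_⟩
  obtain ⟨t, hcfg⟩ := cfg_fK S hlam he hce h1 hθ hθc hval hg2 hgk
  have hchar := charP_KF S
  obtain ⟨C0, hC0⟩ := hcfg.slope_const (dl_ne hlam) (fK_inj hlam hθc) (fK_one_add hlam hθc)
    (fK_rho hlam hθc)
  apply S.exponent_of_const hθc hψ0 hψlt hψθ (C0 := (C0 : F))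
  intro u hu
  rw [← S.slope_sum hθc lam hu]
  refine slope_transfer hlam hθc (C0 := C0) ?_ hu
  intro w
  convert hC0 w

end Pool.Agent.Helper1.Niho4
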